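import Pool.Agent.H598.DG.Fin3

/-!
# Sums of `k`-th powers in finite fields
-/

namespace Pool.Agent.H598.TK

open Finset Pool.Agent.H598.DG

variable {K : Type*} [Field K] [Fintype K]

/-- Every non-zero element is a sum of three `k`-th powers. -/
theorem three_pow {k : ℕ} (hk : 0 < k) (hQ : 8 * k ^ 4 ≤ Fintype.card K) (v : K) :
    ∃ x y z : K, x ^ k + y ^ k + z ^ k = v := by
  classical
  obtain ⟨ψ, hψ⟩ : ∃ ψ : AddChar K ℂ, ψ ≠ 1 := by
    obtain ⟨ψ, hψ⟩ := (AddChar.exists_apply_ne_zero (α := K) (a := 1)).2 one_ne_zero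
    exact ⟨ψ, fun h => hψ (by rw [h]; rfl)⟩
  have hp := AddChar.IsPrimitive.of_ne_one hψ
  by_contra hcon
  push Not at hcon
  set Q : ℝ := (Fintype.card K : ℝ) with hQdef
  have hk1 : (1 : ℝ) ≤ k := by exact_mod_cast hk
  have hQ8 : 8 * (k : ℝ) ^ 4 ≤ Q := by rw [hQdef]; exact_mod_cast hQ
  have hk4 : (1 : ℝ) ≤ (k : ℝ) ^ 4 := one_le_pow₀ hk1
  have hQ2 : 8 ≤ Q := by linarith
  have h1 : ∑ β : K, ψ (-(β * v)) * (S1 ψ k β * S1 ψ k β * S1 ψ k β) = 0 := by
    have h2 : ∀ β : K, ψ (-(β * v)) * (S1 ψ k β * S1 ψ k β * S1 ψ k β)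
        = ∑ x : K, ∑ y : K, ∑ z : K, ψ (β * (x ^ k + y ^ k + z ^ k - v)) := by
      intro β
      unfold S1
      rw [Finset.sum_mul_sum, Finset.sum_mul, Finset.mul_sum]
      apply Finset.sum_congr rfl
      intro x _
      rw [Finset.sum_mul, Finset.mul_sum]
      apply Finset.sum_congr rfl
      intro y _
      rw [Finset.mul_sum, Finset.mul_sum]
      apply Finset.sum_congr rfl
      intro z _
      rw [← AddChar.map_add_eq_mul, ← AddChar.map_add_eq_mul, ← AddChar.map_add_eq_mul]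
      congr 1
      ring
    rw [Finset.sum_congr rfl (fun β _ => h2 β), Finset.sum_comm]
    apply Finset.sum_eq_zero
    intro x _
    rw [Finset.sum_comm]
    apply Finset.sum_eq_zero
    intro y _
    rw [Finset.sum_comm]
    apply Finset.sum_eq_zero
    intro z _
    have h3 := AddChar.sum_mulShift (x ^ k + y ^ k + z ^ k - v) hp
    rw [h3, if_neg (sub_ne_zero.2 (hcon x y z)), Nat.cast_zero]
  have h0 : S1 ψ k (0 : K) = (Q : ℂ) := by
    unfold S1
    simp [hQdef]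
  rw [← Finset.add_sum_erase _ _ (Finset.mem_univ (0 : K))] at h1
  simp only [zero_mul, h0, neg_zero, AddChar.map_zero_eq_one, one_mul] at h1
  set E := ∑ β ∈ Finset.univ.erase (0 : K), ψ (-(β * v)) * (S1 ψ k β * S1 ψ k β * S1 ψ k β)
    with hE
  have hEb : ‖E‖ ≤ Q ^ 3 / 2 := by
    refine le_trans (norm_sum_le _ _) ?_
    have h9 : ∀ β ∈ Finset.univ.erase (0 : K),
        ‖ψ (-(β * v)) * (S1 ψ k β * S1 ψ k β * S1 ψ k β)‖
        ≤ Q / (2 * k) * ‖S1 ψ k β‖ ^ 2 := by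
      intro β hβ
      have hβ0 := Finset.ne_of_mem_erase hβ
      rw [norm_mul, AddChar.norm_apply, one_mul, norm_mul, norm_mul, mul_assoc]
      calc ‖S1 ψ k β‖ * (‖S1 ψ k β‖ * ‖S1 ψ k β‖) = ‖S1 ψ k β‖ * ‖S1 ψ k β‖ ^ 2 := by ring
        _ ≤ _ := mul_le_mul_of_nonneg_right (S1_sup hψ hk hβ0 hQ) (by positivity)
    refine le_trans (Finset.sum_le_sum h9) ?_
    rw [← Finset.mul_sum]
    have h10 : ∑ β ∈ Finset.univ.erase (0 : K), ‖S1 ψ k β‖ ^ 2 ≤ k * Q ^ 2 := by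
      refine le_trans ?_ (S1_moment hψ hk (K := K))
      exact Finset.sum_le_sum_of_subset_of_nonneg (Finset.subset_univ _)
        (fun _ _ _ => by positivity)
    calc _ ≤ Q / (2 * k) * (k * Q ^ 2) := mul_le_mul_of_nonneg_left h10 (by positivity)
      _ = Q ^ 3 / 2 := by field_simp
  have h13 : ((Q ^ 3 : ℝ) : ℂ) = -E := by
    push_cast
    linear_combination h1
  have h14 : Q ^ 3 ≤ Q ^ 3 / 2 := by
    calc Q ^ 3 ≤ |Q ^ 3| := le_abs_self _
      _ = ‖((Q ^ 3 : ℝ) : ℂ)‖ := by rw [Complex.norm_real, Real.norm_eq_abs]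
      _ = ‖E‖ := by rw [h13, norm_neg]
      _ ≤ _ := hEb
  have : 0 < Q ^ 3 := by positivity
  linarith

/-- Every element is a sum of `s ≥ 3` `k`-th powers, not all zero. -/
theorem top_coeff {k s : ℕ} (hk : 0 < k) (hQ : 8 * k ^ 4 ≤ Fintype.card K) (hs : 3 ≤ s) (v : K) :
    ∃ c : Fin s → K, (∃ i, c i ≠ 0) ∧ ∑ i, c i ^ k = v := by
  classical
  obtain ⟨x, y, z, hne, hsum⟩ : ∃ x y z : K, ¬ (x = 0 ∧ y = 0 ∧ z = 0) ∧
      x ^ k + y ^ k + z ^ k = v := by
    by_cases hv : v = 0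
    · obtain ⟨x, y, z, hne, h⟩ := fin3 hk hQ (one_ne_zero (α := K)) (one_ne_zero (α := K))
        (one_ne_zero (α := K))
      refine ⟨x, y, z, hne, ?_⟩
      rw [hv, ← h]; ring
    · obtain ⟨x, y, z, h⟩ := three_pow hk hQ v
      refine ⟨x, y, z, ?_, h⟩
      rintro ⟨rfl, rfl, rfl⟩
      apply hv
      rw [← h, zero_pow hk.ne']; ring
  obtain ⟨t, rfl⟩ : ∃ t, s = 3 + t := ⟨s - 3, by omega⟩
  refine ⟨Fin.append ![x, y, z] (fun _ => 0), ?_, ?_⟩
  · by_contra hcon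
    push Not at hcon
    apply hne
    have h0 := hcon (Fin.castAdd t 0)
    have h1 := hcon (Fin.castAdd t 1)
    have h2 := hcon (Fin.castAdd t 2)
    rw [Fin.append_left] at h0 h1 h2
    exact ⟨h0, h1, h2⟩
  · rw [Fin.sum_univ_add]
    simp only [Fin.append_left, Fin.append_right]
    rw [zero_pow hk.ne', Finset.sum_const_zero, add_zero, Fin.sum_univ_three, ← hsum]
    rfl

end Pool.Agent.H598.TK
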