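import Pool.Agent.H598.TK.Final

/-!
# Sums of `2k + 2u` `k`-th powers: the theorem
-/

namespace Pool.Agent.H598.TK

open Finset Polynomial Pool.Agent.H598.FQ
open Pool.Agent.H598.DG (Kn ism mis DN MN mem_DN mem_MN sum_splitN sum_DN_zero sum_all GG GG_mul
  GG_sub_mem sg sg_ne mean_gen count_GG amgm geo16)
open scoped Classical

variable {F : Type*} [Field F] [Fintype F]

/-- The supremum of the structured exponential sum over the minor functionals. -/
lemma FF_sup {ψ : AddChar F ℂ} (hψ : ψ ≠ 1) {k u R P n' : ℕ} (hk : 2 ≤ k) (hu : 1 ≤ u)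
    (huk : u ≤ k) (hch : ∀ a, a ≤ k → ((k.choose a : ℕ) : F) ≠ 0)
    (hR : 3 ≤ R) (hn : R + 1 ≤ n' + 1) (hnk : k ≤ n' + 1) (hP : R + (n' + 1) = P)
    (hnum : ((((2 * k) ^ (k * n' + 1)) ^ 2 * (1 + k ^ (k * R))) ^ u *
        (4 * (2 * k) ^ (k * P + 1) * Fintype.card F ^ (2 * k - 1)) ^ (4 * k)) ≤ (Wr F R).card ^ u)
    {α : Fin (k * P) → F} (hα : α ∈ MN F (k * P) ((k - 1) * P) P) :
    ‖FF ψ (lin α) k R (n' + 1) u‖ *
        (4 * (2 * k : ℝ) ^ (k * P + 1) * (Fintype.card F : ℝ) ^ (2 * k - 1))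
      ≤ ((Wr F R).card : ℝ) * ((Fintype.card F : ℝ) ^ (n' + 1)) ^ u := by
  have hkF : (k : F) ≠ 0 := by
    have := hch 1 (by omega)
    rwa [Nat.choose_one_right] at this
  have hmis := mem_MN.1 hα
  have hpr := card_prs (R := R) (n := n' + 1) (P := P) (ω := k * R) hk hkF (by omega) hn hnk hP
    hmis (fun g hg hd => le_trans (card_pf_le hg) hd)
  rw [Nat.add_sub_cancel] at hpr
  have hμ : ((prs (lin α) k R (k * n' + 1)).card : ℝ)
      ≤ ((Wr F R).card : ℝ) * (1 + (k : ℝ) ^ (k * R)) := by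
    have : ((prs (lin α) k R (k * n' + 1)).card : ℝ)
        ≤ (((Wr F R).card * (1 + k ^ (k * R)) : ℕ) : ℝ) := by exact_mod_cast hpr
    refine le_trans this (le_of_eq ?_)
    push_cast
    ring
  have hb := FF_bound hψ (by omega) hch (lin α) R n' u hu (by omega) hμ
  set q : ℝ := (Fintype.card F : ℝ) with hq
  have hq0 : 0 < q := by rw [hq]; exact_mod_cast Fintype.card_pos
  set W : ℝ := ((Wr F R).card : ℝ) with hW
  have hW0 : 0 < W := by
    have h1 := card_Wr (F := F) hR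
    have h2 : 0 < Fintype.card F ^ R := Nat.pow_pos Fintype.card_pos
    rw [hW]
    have : 0 < (Wr F R).card := by
      rcases Nat.eq_zero_or_pos (Wr F R).card with h | h
      · rw [h] at h1; omega
      · exact h
    exact_mod_cast this
  set D : ℝ := ((2 * k : ℝ) ^ (k * n' + 1)) ^ 2 * (1 + (k : ℝ) ^ (k * R)) with hD
  set E : ℝ := 4 * (2 * k : ℝ) ^ (k * P + 1) * q ^ (2 * k - 1) with hE
  have hE0 : 0 < E := by
    have : (0 : ℝ) < k := by exact_mod_cast (show 0 < k by omega)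
    positivity
  have hnum' : D ^ u * E ^ (4 * k) ≤ W ^ u := by
    rw [hD, hE, hW, hq]
    exact_mod_cast hnum
  set T := ‖FF ψ (lin α) k R (n' + 1) u‖ with hT
  set F0 : ℝ := W * (q ^ (n' + 1)) ^ u with hF0
  have hWu : 0 < W ^ u := by positivity
  have h1 : (T * E) ^ (4 * k) * W ^ u ≤ F0 ^ (4 * k) * W ^ u := by
    calc (T * E) ^ (4 * k) * W ^ u = (T ^ (4 * k) * W ^ u) * E ^ (4 * k) := by rw [mul_pow]; ring
      _ ≤ (F0 ^ (4 * k) * D ^ u) * E ^ (4 * k) :=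
          mul_le_mul_of_nonneg_right hb (by positivity)
      _ = F0 ^ (4 * k) * (D ^ u * E ^ (4 * k)) := by ring
      _ ≤ F0 ^ (4 * k) * W ^ u := mul_le_mul_of_nonneg_left hnum' (by positivity)
  have h2 := le_of_mul_le_mul_right h1 hWu
  exact le_of_pow_le_pow_left₀ (by omega) (by positivity) h2

/-- The existence of a structured block for which the full variables have a solution. -/
theorem exists_zero {ψ : AddChar F ℂ} (hψ : ψ ≠ 1) {k u R P n' : ℕ} (hk : 2 ≤ k) (hu : 1 ≤ u)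
    (huk : u ≤ k) (hch : ∀ a, a ≤ k → ((k.choose a : ℕ) : F) ≠ 0)
    (hlev : ∀ d, 1 ≤ d →
      (k ^ d * (2 * k) ^ (k * (d - 1) + 1)) ^ u * ((2 * k) ^ (k * d + 1) * 16 ^ d) ^ (2 * k)
        ≤ ((Fintype.card F - 1) ^ d) ^ u)
    (hR : 3 ≤ R) (hn : R + 1 ≤ n' + 1) (hnk : k ≤ n' + 1) (hP : R + (n' + 1) = P)
    (hnum : ((((2 * k) ^ (k * n' + 1)) ^ 2 * (1 + k ^ (k * R))) ^ u *
        (4 * (2 * k) ^ (k * P + 1) * Fintype.card F ^ (2 * k - 1)) ^ (4 * k)) ≤ (Wr F R).card ^ u)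
    {c : Fin (2 * k + u) → F} {i₀ : Fin (2 * k + u)} (hi₀ : c i₀ ≠ 0) {m : F[X]}
    (hm : m ∈ degreeLT F (k * P + 1)) (hc : ∑ i, c i ^ k = m.coeff (k * P)) :
    ∃ r ∈ Wr F R, ∃ z : Fin u → degreeLT F (n' + 1), ZZ k c P (mo k m r z) ≠ 0 := by
  by_contra hno
  push Not at hno
  set q : ℝ := (Fintype.card F : ℝ) with hq
  have hq0 : 0 < q := by rw [hq]; exact_mod_cast Fintype.card_pos
  set W : ℝ := ((Wr F R).card : ℝ) with hW
  have hW0 : 0 < W := by
    have h1 := card_Wr (F := F) hR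
    have h2 : 0 < Fintype.card F ^ R := Nat.pow_pos Fintype.card_pos
    rw [hW]
    have : 0 < (Wr F R).card := by
      rcases Nat.eq_zero_or_pos (Wr F R).card with h | h
      · rw [h] at h1; omega
      · exact h
    exact_mod_cast this
  set Q : ℝ := (q ^ P) ^ (2 * k + u) with hQ
  have hQ0 : 0 < Q := by positivity
  have hst : ∀ (r : degreeLT F R) (z : Fin u → degreeLT F (n' + 1)),
      ∑ j, (wp r * (z j : F[X])) ^ k ∈ degreeLT F (k * P) := by
    intro r z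
    apply Submodule.sum_mem
    intro j _
    exact st_mem (by omega) hP (by omega) r (z j)
  have hmo : ∀ (r : degreeLT F R) (z : Fin u → degreeLT F (n' + 1)),
      mo k m r z ∈ degreeLT F (k * P + 1) := by
    intro r z
    exact Submodule.sub_mem _ hm (V_mono (Nat.le_succ _) (hst r z))
  have hmc : ∀ (r : degreeLT F R) (z : Fin u → degreeLT F (n' + 1)),
      ∑ i, c i ^ k = (mo k m r z).coeff (k * P) := by
    intro r z
    unfold mo
    rw [coeff_sub, mem_V_iff.1 (hst r z) (k * P) le_rfl, sub_zero, hc]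
  have hper : ∀ r ∈ Wr F R, ∀ z : Fin u → degreeLT F (n' + 1),
      ‖((Q : ℝ) : ℂ) + SM ψ k c P (mo k m r z)‖ ≤ Q / 15 := by
    intro r hr z
    have h1 := per_m hψ hk rfl hch hlev (show 1 ≤ P by omega) hi₀ (hmo r z) (hmc r z)
    rw [hno r hr z, Nat.cast_zero, mul_zero, Complex.ofReal_zero, sub_zero] at h1
    exact h1
  -- sum over the structured variables
  set Om : ℝ := W * (q ^ (n' + 1)) ^ u with hOm
  have hOm0 : 0 < Om := by positivity
  have hcardz : ((Fintype.card (Fin u → degreeLT F (n' + 1)) : ℕ) : ℝ) = (q ^ (n' + 1)) ^ u := by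
    rw [Fintype.card_fun, card_V, Fintype.card_fin]
    push_cast
    rfl
  have hsum : ‖((Om * Q : ℝ) : ℂ) + ∑ r ∈ Wr F R, ∑ z : Fin u → degreeLT F (n' + 1),
      SM ψ k c P (mo k m r z)‖ ≤ Om * (Q / 15) := by
    have e1 : ((Om * Q : ℝ) : ℂ) + ∑ r ∈ Wr F R, ∑ z : Fin u → degreeLT F (n' + 1),
        SM ψ k c P (mo k m r z)
        = ∑ r ∈ Wr F R, ∑ z : Fin u → degreeLT F (n' + 1),
          (((Q : ℝ) : ℂ) + SM ψ k c P (mo k m r z)) := by
      simp only [Finset.sum_add_distrib, Finset.sum_const, Finset.card_univ, nsmul_eq_mul]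
      congr 1
      have e2 : ((Om * Q : ℝ) : ℂ) = ((W * ((Fintype.card (Fin u → degreeLT F (n' + 1)) : ℕ) : ℝ)
          * Q : ℝ) : ℂ) := by rw [hcardz]
      rw [e2, hW]
      push_cast
      ring
    rw [e1]
    refine le_trans (norm_sum_le _ _) ?_
    have h2 : ∀ r ∈ Wr F R, ‖∑ z : Fin u → degreeLT F (n' + 1),
        (((Q : ℝ) : ℂ) + SM ψ k c P (mo k m r z))‖ ≤ (q ^ (n' + 1)) ^ u * (Q / 15) := by
      intro r hr
      refine le_trans (norm_sum_le _ _) ?_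
      refine le_trans (Finset.sum_le_sum (fun z _ => hper r hr z)) ?_
      rw [Finset.sum_const, Finset.card_univ, nsmul_eq_mul, hcardz]
    refine le_trans (Finset.sum_le_sum h2) ?_
    rw [Finset.sum_const, nsmul_eq_mul, hOm, ← hW, mul_assoc]
  have hSM : ‖∑ r ∈ Wr F R, ∑ z : Fin u → degreeLT F (n' + 1), SM ψ k c P (mo k m r z)‖
      ≤ Om * Q / 4 := by
    rw [sum_SM]
    refine le_trans (norm_sum_le _ _) ?_
    set E : ℝ := 4 * (2 * k : ℝ) ^ (k * P + 1) * q ^ (2 * k - 1) with hE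
    have hE0 : 0 < E := by
      have : (0 : ℝ) < k := by exact_mod_cast (show 0 < k by omega)
      positivity
    have h1 : ∀ α ∈ MN F (k * P) ((k - 1) * P) P,
        ‖ψ (-(lin α m)) * ((∏ i, S0 ψ (lin α) k c P i) * FF ψ (lin α) k R (n' + 1) u)‖
        ≤ (∏ i, ‖S0 ψ (lin α) k c P i‖) * (Om / E) := by
      intro α hα
      rw [norm_mul, AddChar.norm_apply, one_mul, norm_mul, norm_prod]
      apply mul_le_mul_of_nonneg_left _ (Finset.prod_nonneg (fun _ _ => norm_nonneg _))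
      rw [le_div_iff₀ hE0]
      exact FF_sup hψ hk hu huk hch hR hn hnk hP hnum hα
    refine le_trans (Finset.sum_le_sum h1) ?_
    rw [← Finset.sum_mul]
    have h2 := prod_mean hψ hk (rfl : 2 * k + u = 2 * k + u) hch c (MN F (k * P) ((k - 1) * P) P)
    calc (∑ α ∈ MN F (k * P) ((k - 1) * P) P, ∏ i, ‖S0 ψ (lin α) k c P i‖) * (Om / E)
        ≤ (Q * ((2 * k : ℝ) ^ (k * P + 1) * q ^ (2 * k - 1))) * (Om / E) :=
          mul_le_mul_of_nonneg_right h2 (by positivity)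
      _ = Om * Q / 4 := by
          rw [hE]
          have : (0 : ℝ) < k := by exact_mod_cast (show 0 < k by omega)
          field_simp
  have h3 : Om * Q ≤ Om * (Q / 15) + Om * Q / 4 := by
    have h4 : ‖((Om * Q : ℝ) : ℂ)‖ ≤ ‖((Om * Q : ℝ) : ℂ) + ∑ r ∈ Wr F R,
        ∑ z : Fin u → degreeLT F (n' + 1), SM ψ k c P (mo k m r z)‖
        + ‖∑ r ∈ Wr F R, ∑ z : Fin u → degreeLT F (n' + 1), SM ψ k c P (mo k m r z)‖ := by
      have := norm_sub_le (((Om * Q : ℝ) : ℂ) + ∑ r ∈ Wr F R,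
        ∑ z : Fin u → degreeLT F (n' + 1), SM ψ k c P (mo k m r z))
        (∑ r ∈ Wr F R, ∑ z : Fin u → degreeLT F (n' + 1), SM ψ k c P (mo k m r z))
      rwa [add_sub_cancel_right] at this
    have h5 : ‖((Om * Q : ℝ) : ℂ)‖ = Om * Q := by
      rw [Complex.norm_real, Real.norm_of_nonneg (by positivity)]
    rw [h5] at h4
    linarith
  have h6 : 0 < Om * Q := by positivity
  linarith

/-- **Sums of `2k + 2u` `k`-th powers in `F_q[t]`.** -/
theorem rep_box {k u : ℕ} (hk : 2 ≤ k) (hu : 1 ≤ u) (huk : u ≤ k)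
    (hch : ∀ a, a ≤ k → ((k.choose a : ℕ) : F) ≠ 0)
    (hq : (2 * k) ^ (12 * k ^ 2) ≤ Fintype.card F ^ u) :
    ∃ P₀ : ℕ, ∀ P, P₀ ≤ P → ∀ m ∈ degreeLT F (k * P + 1),
      ∃ x : Fin (2 * k + u + u) → F[X], (∀ i, (x i).natDegree ≤ P) ∧ ∑ i, x i ^ k = m := by
  obtain ⟨ψ, hψ⟩ : ∃ ψ : AddChar F ℂ, ψ ≠ 1 := by
    obtain ⟨ψ, hψ⟩ := (AddChar.exists_apply_ne_zero (α := F) (a := 1)).2 one_ne_zero
    exact ⟨ψ, fun h => hψ (by rw [h]; rfl)⟩
  obtain ⟨R₀, hR₀⟩ := exists_R hk huk hu hq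
  obtain ⟨h8, hlev⟩ := lev_num hk huk hq hu
  refine ⟨2 * R₀ + 2 * k + 10, fun P hP m hm => ?_⟩
  set R := (P - 1) / 2 with hR
  obtain ⟨n', hn'⟩ : ∃ n', R + (n' + 1) = P := ⟨P - R - 1, by omega⟩
  have hRge : R₀ + k + 4 ≤ R := by omega
  have hnum := hR₀ R (by omega) P n' (Wr F R).card (by omega) (by omega)
    (card_Wr (by omega))
  obtain ⟨c, ⟨i₀, hi₀⟩, hc⟩ := top_coeff (K := F) (k := k) (s := 2 * k + u) (by omega) h8
    (by omega) (m.coeff (k * P))
  obtain ⟨r, -, z, hz⟩ := exists_zero hψ hk hu huk hch hlev (R := R) (P := P) (n' := n')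
    (by omega) (by omega) (by omega) hn' hnum hi₀ hm hc
  obtain ⟨y, hy⟩ := Finset.card_ne_zero.1 hz
  have hy' := (Finset.mem_filter.1 hy).2
  rw [EP_eq] at hy'
  unfold mo at hy'
  refine ⟨Fin.append (fun i => bb c P i + (y i : F[X])) (fun j => wp r * (z j : F[X])), ?_, ?_⟩
  · intro i
    refine Fin.addCases (fun i => ?_) (fun j => ?_) i
    · rw [Fin.append_left]
      exact natDegree_bb c P i (y i).2
    · rw [Fin.append_right]
      refine le_trans natDegree_mul_le ?_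
      rw [wp_natDegree]
      have := mem_V_succ_iff.1 (z j).2
      omega
  · rw [Fin.sum_univ_add]
    simp only [Fin.append_left, Fin.append_right]
    have h1 : ∑ i, (bb c P i + (y i : F[X])) ^ k = m - ∑ j, (wp r * (z j : F[X])) ^ k :=
      sub_eq_zero.1 hy'
    rw [h1]
    ring

end Pool.Agent.H598.TK
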