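import Pool.Agent.H598.FQ.Basic

/-!
# The number of monic irreducible polynomials of given degree
-/

namespace Pool.Agent.H598.TK

open Finset Polynomial Pool.Agent.H598.FQ
open scoped Classical

variable {F : Type*} [Field F]

/-- The monic polynomial of degree `R` with lower part `r`. -/
noncomputable def wp {R : ℕ} (r : degreeLT F R) : F[X] := X ^ R + (r : F[X])

lemma deg_lt {R : ℕ} (r : degreeLT F R) : (r : F[X]).degree < R := mem_degreeLT.1 r.2

lemma wp_monic {R : ℕ} (r : degreeLT F R) : (wp r).Monic := monic_X_pow_add (deg_lt r)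

lemma wp_natDegree {R : ℕ} (r : degreeLT F R) : (wp r).natDegree = R := by
  unfold wp
  apply natDegree_eq_of_degree_eq_some
  rw [degree_add_eq_left_of_degree_lt]
  · exact degree_X_pow R
  · rw [degree_X_pow]; exact deg_lt r

lemma wp_inj {R : ℕ} {r r' : degreeLT F R} (h : wp r = wp r') : r = r' :=
  Subtype.ext (add_left_cancel h)

lemma exists_wp {R : ℕ} {f : F[X]} (hf : f.Monic) (hd : f.natDegree = R) :
    ∃ r : degreeLT F R, wp r = f := by
  have h1 : f - X ^ R ∈ degreeLT F R := by
    rw [mem_V_iff]
    intro j hj
    rw [coeff_sub, coeff_X_pow]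
    rcases Nat.eq_or_lt_of_le hj with h | h
    · subst h
      rw [if_pos rfl, ← hd, hf.coeff_natDegree, sub_self]
    · rw [if_neg (by omega), coeff_eq_zero_of_natDegree_lt (by omega), sub_zero]
  refine ⟨⟨f - X ^ R, h1⟩, ?_⟩
  unfold wp
  ring

variable [Fintype F]

/-- The monic irreducible polynomials of degree `R` (their lower parts). -/
noncomputable def Wr (F : Type*) [Field F] [Fintype F] (R : ℕ) : Finset (degreeLT F R) :=
  Finset.univ.filter (fun r => Irreducible (wp r))

lemma mem_Wr {R : ℕ} {r : degreeLT F R} : r ∈ Wr F R ↔ Irreducible (wp r) := by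
  rw [Wr, Finset.mem_filter]
  exact ⟨fun h => h.2, fun h => ⟨Finset.mem_univ _, h⟩⟩

lemma geo_le {q : ℕ} (hq : 2 ≤ q) (n : ℕ) : ∑ j ∈ Finset.range n, q ^ (j + 1) + 1 ≤ q ^ (n + 1) := by
  induction n with
  | zero => simp; omega
  | succ n ih =>
    rw [Finset.sum_range_succ, pow_succ q (n + 1)]
    have h1 : 1 ≤ q ^ (n + 1) := Nat.one_le_pow _ _ (by omega)
    nlinarith

theorem card_Wr {R : ℕ} (hR : 3 ≤ R) : Fintype.card F ^ R ≤ 2 * R * (Wr F R).card := by
  obtain ⟨p, hp⟩ := CharP.exists F
  have hprime : Fact (Nat.Prime p) := ⟨CharP.char_is_prime F p⟩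
  have hne : NeZero R := ⟨by omega⟩
  let K := FiniteField.Extension F p R
  have : Finite K := Module.finite_of_finite F
  let _ : Fintype K := Fintype.ofFinite K
  set q := Fintype.card F with hq
  have hq2 : 2 ≤ q := Fintype.one_lt_card
  have hK : Fintype.card K = q ^ R := by
    rw [← Nat.card_eq_fintype_card, FiniteField.natCard_extension, Nat.card_eq_fintype_card]
  have hint : ∀ α : K, IsIntegral F α := fun α => Algebra.IsIntegral.isIntegral α
  set S1 : Finset K := Finset.univ.filter (fun α => (minpoly F α).natDegree = R) with hS1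
  set S2 : Finset K := Finset.univ.filter (fun α => ¬ (minpoly F α).natDegree = R) with hS2
  have hsum : S1.card + S2.card = q ^ R := by
    rw [← hK, ← Finset.card_univ, hS1, hS2]
    exact Finset.card_filter_add_card_filter_not _
  -- elements of full degree
  have h1 : S1.card ≤ R * (Wr F R).card := by
    have hex : ∀ α : K, ∃ r : degreeLT F R, (minpoly F α).natDegree = R → wp r = minpoly F α := by
      intro α
      by_cases h : (minpoly F α).natDegree = R
      · obtain ⟨r, hr⟩ := exists_wp (minpoly.monic (hint α)) h
        exact ⟨r, fun _ => hr⟩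
      · exact ⟨0, fun h' => absurd h' h⟩
    choose φ hφ using hex
    apply Finset.card_le_mul_card_image_of_maps_to (f := φ)
    · intro α hα
      have h2 := hφ α (Finset.mem_filter.1 hα).2
      rw [mem_Wr, h2]
      exact minpoly.irreducible (hint α)
    · intro r _
      have h3 : (S1.filter (fun α => φ α = r)) ⊆ ((wp r).map (algebraMap F K)).roots.toFinset := by
        intro α hα
        rw [Finset.mem_filter] at hα
        have h2 := hφ α (Finset.mem_filter.1 hα.1).2
        rw [Multiset.mem_toFinset, mem_roots_map (wp_monic r).ne_zero, ← hα.2, h2,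
          ← aeval_def, minpoly.aeval]
      refine le_trans (Finset.card_le_card h3) ?_
      refine le_trans (Multiset.toFinset_card_le _) ?_
      refine le_trans (card_roots' _) ?_
      rw [natDegree_map, wp_natDegree]
  -- elements of smaller degree
  have h2 : S2.card ≤ ∑ j ∈ Finset.range (R / 2), q ^ (j + 1) := by
    have hsub : S2 ⊆ (Finset.range (R / 2)).biUnion
        (fun j => ((X : K[X]) ^ (q ^ (j + 1)) - X).roots.toFinset) := by
      intro α hα
      have hne := (Finset.mem_filter.1 hα).2
      have hdvd : (minpoly F α).natDegree ∣ R := by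
        have := minpoly.degree_dvd (hint α)
        rwa [FiniteField.finrank_extension] at this
      have hpos : 0 < (minpoly F α).natDegree := minpoly.natDegree_pos (hint α)
      obtain ⟨e, he⟩ := hdvd
      have he2 : 2 ≤ e := by
        rcases Nat.lt_or_ge e 2 with h | h
        · interval_cases e
          · omega
          · exact absurd (by omega) hne
        · exact h
      have hle : (minpoly F α).natDegree ≤ R / 2 := by
        rw [Nat.le_div_iff_mul_le (by norm_num)]
        nlinarith
      rw [Finset.mem_biUnion]
      refine ⟨(minpoly F α).natDegree - 1, Finset.mem_range.2 (by omega), ?_⟩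
      have he3 : (minpoly F α).natDegree - 1 + 1 = (minpoly F α).natDegree := by omega
      rw [he3, Multiset.mem_toFinset, mem_roots]
      · have h4 := ((minpoly.irreducible (hint α)).natDegree_dvd_iff_dvd_X_pow_card_pow_sub_X
          (n := (minpoly F α).natDegree)).1 dvd_rfl
        obtain ⟨c, hc⟩ := h4
        have h5 := congrArg (aeval α) hc
        rw [map_mul, minpoly.aeval, zero_mul] at h5
        simp only [map_sub, map_pow, aeval_X] at h5
        rw [Nat.card_eq_fintype_card] at h5
        rw [IsRoot, eval_sub, eval_pow, eval_X]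
        exact h5
      · exact FiniteField.X_pow_card_sub_X_ne_zero K (Nat.one_lt_pow (by omega) (by omega))
    refine le_trans (Finset.card_le_card hsub) ?_
    refine le_trans Finset.card_biUnion_le ?_
    apply Finset.sum_le_sum
    intro j _
    refine le_trans (Multiset.toFinset_card_le _) ?_
    refine le_trans (card_roots' _) ?_
    rw [FiniteField.X_pow_card_sub_X_natDegree_eq K (Nat.one_lt_pow (by omega) (by omega))]
  have h3 := geo_le hq2 (R / 2)
  have h4 : 2 * q ^ (R / 2 + 1) ≤ q ^ R := by
    calc 2 * q ^ (R / 2 + 1) ≤ q * q ^ (R / 2 + 1) := Nat.mul_le_mul_right _ hq2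
      _ = q ^ (R / 2 + 2) := by rw [← pow_succ']
      _ ≤ q ^ R := Nat.pow_le_pow_right (by omega) (by omega)
  have h5 : 2 * R * (Wr F R).card = 2 * (R * (Wr F R).card) := by ring
  omega

end Pool.Agent.H598.TK
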