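import Pool.Agent.H598.TK.Roots
import Pool.Agent.H598.TK.Irred

/-!
# The structure of the polynomials killed by a functional
-/

namespace Pool.Agent.H598.TK

open Finset Polynomial Pool.Agent.H598.FQ Pool.Agent.H598.DG
open scoped Classical

variable {F : Type*} [Field F]

lemma mem_V_zero {w : F[X]} (hw : w ∈ degreeLT F 0) : w = 0 := by
  ext j
  rw [mem_V_iff.1 hw j (Nat.zero_le _), coeff_zero]

lemma mem_of_mul_mem {g v : F[X]} {d n : ℕ} (hg : g ≠ 0) (hd : g.natDegree = d)
    (h : g * v ∈ degreeLT F (d + n)) : v ∈ degreeLT F n := by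
  by_cases hv : v = 0
  · rw [hv]; exact Submodule.zero_mem _
  rw [mem_degreeLT, degree_mul, degree_eq_natDegree hg, hd, degree_eq_natDegree hv] at h
  rw [mem_degreeLT, degree_eq_natDegree hv]
  have : d + v.natDegree < d + n := by exact_mod_cast h
  exact_mod_cast (by omega : v.natDegree < n)

/-- Division with remainder. -/
lemma exists_div {m w : F[X]} {e n : ℕ} (hm : m ≠ 0) (hd : m.natDegree = e)
    (hw : w ∈ degreeLT F (e + n)) : ∃ s t : F[X], w = m * s + t ∧ s ∈ degreeLT F n ∧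
      t ∈ degreeLT F e := by
  have h1 : w % m ∈ degreeLT F e := by
    rw [mem_degreeLT, ← hd, ← degree_eq_natDegree hm]
    exact degree_mod_lt w hm
  refine ⟨w / m, w % m, (EuclideanDomain.div_add_mod w m).symm, ?_, h1⟩
  apply mem_of_mul_mem hm hd
  have h2 : m * (w / m) = w - w % m := by
    have := EuclideanDomain.div_add_mod w m
    linear_combination this
  rw [h2]
  exact Submodule.sub_mem _ hw (V_mono (by omega) h1)

lemma mul_mem_deg {a y : F[X]} {d n : ℕ} (ha : a.natDegree ≤ d) (hy : y ∈ degreeLT F n) :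
    a * y ∈ degreeLT F (d + n) := by
  have := mul_mem_VN ha hy
  rwa [add_comm] at this

lemma mul_mem_left {a y : F[X]} {d n : ℕ} (ha : a.natDegree = d) (hy : y ∈ degreeLT F n) :
    a * y ∈ degreeLT F (d + n) := mul_mem_deg ha.le hy

/-- Elements of small degree which kill `V b` are multiples of the one of least degree. -/
theorem dvd_of_kill {L : F[X] →ₗ[F] F} {b : ℕ} {g h : F[X]} (hg : g ≠ 0) (hgK : Kn L b g)
    (hmin : ∀ c : F[X], c ≠ 0 → c.natDegree < g.natDegree → ¬ Kn L b c)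
    (hhK : Kn L b h) (hhb : h.natDegree ≤ b) : g ∣ h := by
  by_contra hnd
  have hh0 : h ≠ 0 := by rintro rfl; exact hnd (dvd_zero _)
  set d1 := g.natDegree with hd1
  have hgh : d1 ≤ h.natDegree := by
    by_contra hlt
    exact hmin h hh0 (by omega) hhK
  set b' := b - (h.natDegree - d1) with hb'
  have hb'1 : d1 ≤ b' := by omega
  -- division of h by g
  have hhm : h ∈ degreeLT F (d1 + (h.natDegree - d1 + 1)) := by
    have e : d1 + (h.natDegree - d1 + 1) = h.natDegree + 1 := by omega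
    rw [e, mem_V_succ_iff]
  obtain ⟨Q, r, hhr, hQ, hr⟩ := exists_div hg hd1.symm hhm
  rw [mem_V_succ_iff] at hQ
  have hr0 : r ≠ 0 := by
    rintro rfl
    exact hnd ⟨Q, by rw [hhr, add_zero]⟩
  have hrK : Kn L b' r := by
    intro y hy
    have h1 : r * y = h * y - g * (Q * y) := by rw [hhr]; ring
    have h2 : Q * y ∈ degreeLT F b := V_mono (by omega) (mul_mem_deg hQ hy)
    rw [h1, map_sub, hhK y (V_mono (by omega) hy), hgK _ h2, sub_self]
  have hrd : r.natDegree < d1 := by
    have hpos : 0 < d1 := by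
      rcases Nat.eq_zero_or_pos d1 with h0 | h0
      · rw [h0] at hr
        exact absurd (mem_V_zero hr) hr0
      · exact h0
    obtain ⟨e, he⟩ : ∃ e, d1 = e + 1 := ⟨d1 - 1, by omega⟩
    rw [he, mem_V_succ_iff] at hr
    omega
  -- the greatest common divisor
  set c := EuclideanDomain.gcd r g with hc
  obtain ⟨r', hr'⟩ := EuclideanDomain.gcd_dvd_left r g
  obtain ⟨g', hg'⟩ := EuclideanDomain.gcd_dvd_right r g
  rw [← hc] at hr' hg'
  have hbez : c = r * EuclideanDomain.gcdA r g + g * EuclideanDomain.gcdB r g :=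
    EuclideanDomain.gcd_eq_gcd_ab r g
  set u := EuclideanDomain.gcdA r g
  set v := EuclideanDomain.gcdB r g
  have hc0 : c ≠ 0 := by
    intro h0
    rw [h0, zero_mul] at hr'
    exact hr0 hr'
  have hg'0 : g' ≠ 0 := by
    intro h0
    rw [h0, mul_zero] at hg'
    exact hg hg'
  have hcd : c.natDegree < d1 :=
    lt_of_le_of_lt (natDegree_le_of_dvd ⟨r', hr'⟩ hr0) hrd
  have hgd : c.natDegree + g'.natDegree = d1 := by
    rw [hd1]
    conv_rhs => rw [hg']
    rw [natDegree_mul hc0 hg'0]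
  apply hmin c hc0 hcd
  intro z hz
  -- reduce u z modulo g'
  obtain ⟨n, hn⟩ : ∃ n, u * z ∈ degreeLT F (g'.natDegree + n) :=
    ⟨(u * z).natDegree + 1, V_mono (by omega) (mem_V_succ_iff.2 (le_refl (u * z).natDegree))⟩
  obtain ⟨s, u', hus, -, hu'⟩ := exists_div hg'0 rfl hn
  have hid : c * z = r * u' + g * (r' * s + v * z) := by
    have e1 : c * z = r * (u * z) + g * (v * z) := by
      conv_lhs => rw [hbez]
      ring
    rw [e1, hus]
    have e2 : r * g' = g * r' := by
      conv_lhs => rw [hr']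
      conv_rhs => rw [hg']
      ring
    linear_combination s * e2
  have hv' : r' * s + v * z ∈ degreeLT F b := by
    apply mem_of_mul_mem hg hd1.symm
    have e3 : g * (r' * s + v * z) = c * z - r * u' := by rw [hid]; ring
    rw [e3]
    apply Submodule.sub_mem
    · exact V_mono (by omega) (mul_mem_left rfl hz)
    · exact V_mono (by omega) (mul_mem_left rfl hu')
  rw [hid, map_add, hrK u' (V_mono (by omega) hu'), hgK _ hv', add_zero]

/-- If `g` and `g z` kill `V b`, then `g` kills more. -/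
lemma kill_more {L : F[X] →ₗ[F] F} {b : ℕ} {g z : F[X]} (hgK : Kn L b g) (hz : z ≠ 0)
    (hgz : Kn L b (g * z)) (hf : z.natDegree ≤ b) : Kn L (z.natDegree + b) g := by
  intro y hy
  obtain ⟨s, t, hst, hs, ht⟩ := exists_div hz rfl hy
  have e : g * y = g * z * s + g * t := by rw [hst]; ring
  rw [e, map_add, hgz s hs, hgK t (V_mono hf ht), add_zero]

/-- The degree of a difference of `k`-th powers. -/
lemma natDegree_pow_sub {k R : ℕ} (_hk : 0 < k) (hkF : (k : F) ≠ 0) {w w' : F[X]} (hw : w.Monic)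
    (hw' : w'.Monic) (hd : w.natDegree = R) (hd' : w'.natDegree = R) (hne : w ≠ w') :
    (w ^ k - w' ^ k).natDegree = (k - 1) * R + (w - w').natDegree ∧ w ^ k - w' ^ k ≠ 0 := by
  set s := ∑ j ∈ Finset.range k, w ^ j * w' ^ (k - 1 - j) with hs
  have h1 : (w - w') * s = w ^ k - w' ^ k := (Commute.all w w').mul_geom_sum₂ k
  have hsle : s.natDegree ≤ (k - 1) * R := by
    have := natDegree_geom (k := k) (le_of_eq hd) (le_of_eq hd')
    exact this
  have hsc : s.coeff ((k - 1) * R) = k := by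
    have h2 := coeff_geom (k := k) (le_of_eq hd) (le_of_eq hd') (by
      rw [← hd, hw.coeff_natDegree, hd, ← hd', hw'.coeff_natDegree])
    rw [hs, h2]
    rw [← hd, hw.coeff_natDegree, one_pow, mul_one]
  have hs0 : s ≠ 0 := by
    intro h0
    rw [h0, coeff_zero] at hsc
    exact hkF hsc.symm
  have hsd : s.natDegree = (k - 1) * R := by
    apply le_antisymm hsle
    apply le_natDegree_of_ne_zero
    rw [hsc]; exact hkF
  have hsub : w - w' ≠ 0 := sub_ne_zero.2 hne
  rw [← h1]
  refine ⟨?_, mul_ne_zero hsub hs0⟩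
  rw [natDegree_mul hsub hs0, hsd, add_comm]

/-- The polynomials `w` for which `w ^ k - w' ^ k` is killed are few. -/
theorem card_killed {k R n P : ℕ} (hk : 2 ≤ k) (hkF : (k : F) ≠ 0) {L : F[X] →ₗ[F] F}
    (hR : 1 ≤ R) (hn : R + 1 ≤ n) (hnk : k ≤ n) (hP : R + n = P)
    (hL : mis L ((k - 1) * P) P) (r' : degreeLT F R) (hr' : Irreducible (wp r'))
    (A : Finset (degreeLT F R)) (hA : ∀ r ∈ A, Irreducible (wp r) ∧
      Kn L (k * (n - 1) + 1) (wp r ^ k - wp r' ^ k)) :
    A = ∅ ∨ A = {r'} ∨ ∃ g : F[X], g ≠ 0 ∧ g.natDegree ≤ k * R ∧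
      A.card ≤ 1 + k ^ (pf g).card := by
  set b := k * (n - 1) + 1 with hb
  by_cases hA2 : A ⊆ {r'}
  · rcases Finset.subset_singleton_iff.1 hA2 with h | h
    · exact Or.inl h
    · exact Or.inr (Or.inl h)
  right; right
  obtain ⟨r₀, hr₀, hr₀'⟩ := Finset.not_subset.1 hA2
  rw [Finset.mem_singleton] at hr₀'
  have hex : ∃ d, ∃ h : F[X], h ≠ 0 ∧ h.natDegree = d ∧ Kn L b h := by
    refine ⟨_, wp r₀ ^ k - wp r' ^ k, ?_, rfl, (hA r₀ hr₀).2⟩
    exact (natDegree_pow_sub (by omega) hkF (wp_monic r₀) (wp_monic r') (wp_natDegree r₀)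
      (wp_natDegree r') (fun h => hr₀' (wp_inj h))).2
  obtain ⟨g, hg0, hgd, hgK⟩ := Nat.find_spec hex
  have hgmin : ∀ c : F[X], c ≠ 0 → c.natDegree < g.natDegree → ¬ Kn L b c := by
    intro c hc0 hcd hcK
    rw [hgd] at hcd
    exact Nat.find_min hex hcd ⟨c, hc0, rfl, hcK⟩
  have hRb : k * R ≤ b := by
    rw [hb]
    have := Nat.mul_le_mul_left k (show R ≤ n - 1 by omega)
    omega
  -- the differences
  have hdiff : ∀ r₁ ∈ A, ∀ r₂ ∈ A, r₁ ≠ r₂ → g ∣ wp r₁ ^ k - wp r₂ ^ k ∧
      (wp r₁ - wp r₂).natDegree < g.natDegree := by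
    intro r₁ h₁ r₂ h₂ hne
    have hne' : wp r₁ ≠ wp r₂ := fun h => hne (wp_inj h)
    obtain ⟨hdeg, hh0⟩ := natDegree_pow_sub (k := k) (by omega) hkF (wp_monic r₁) (wp_monic r₂)
      (wp_natDegree r₁) (wp_natDegree r₂) hne'
    have hKh : Kn L b (wp r₁ ^ k - wp r₂ ^ k) := by
      intro y hy
      have e : (wp r₁ ^ k - wp r₂ ^ k) * y
          = (wp r₁ ^ k - wp r' ^ k) * y - (wp r₂ ^ k - wp r' ^ k) * y := by ring
      rw [e, map_sub, (hA r₁ h₁).2 y hy, (hA r₂ h₂).2 y hy, sub_self]
    have hdR : (wp r₁ - wp r₂).natDegree < R := by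
      have h3 : wp r₁ - wp r₂ = (r₁ : F[X]) - (r₂ : F[X]) := by unfold wp; ring
      have h4 : (r₁ : F[X]) - (r₂ : F[X]) ∈ degreeLT F R := Submodule.sub_mem _ r₁.2 r₂.2
      obtain ⟨e, rfl⟩ : ∃ e, R = e + 1 := ⟨R - 1, by omega⟩
      rw [h3]
      rw [mem_V_succ_iff] at h4
      omega
    have hkR : (k - 1) * R + R = k * R := by
      obtain ⟨k', rfl⟩ : ∃ k', k = k' + 1 := ⟨k - 1, by omega⟩
      simp only [Nat.add_sub_cancel]; ring
    have hdvd : g ∣ wp r₁ ^ k - wp r₂ ^ k :=
      dvd_of_kill hg0 hgK hgmin hKh (by omega)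
    refine ⟨hdvd, ?_⟩
    obtain ⟨z, hz⟩ := hdvd
    have hz0 : z ≠ 0 := by
      intro h0
      rw [h0, mul_zero] at hz
      exact hh0 hz
    have hdz : (wp r₁ ^ k - wp r₂ ^ k).natDegree = g.natDegree + z.natDegree := by
      rw [hz, natDegree_mul hg0 hz0]
    by_cases hgP : g.natDegree ≤ P
    · have h5 : Kn L (z.natDegree + b) g := by
        apply kill_more hgK hz0 _ (by omega)
        rw [← hz]; exact hKh
      have h6 : z.natDegree + b < (k - 1) * P := by
        by_contra hge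
        push Not at hge
        apply hL g hg0 hgP
        intro y hy
        exact h5 y (V_mono hge hy)
      have h7 : (k - 1) * P = (k - 1) * R + (k - 1) * n := by rw [← hP, mul_add]
      have h8 : b = (k - 1) * n + n - k + 1 := by
        rw [hb, Nat.mul_sub, mul_one]
        obtain ⟨k', rfl⟩ : ∃ k', k = k' + 1 := ⟨k - 1, by omega⟩
        simp only [Nat.add_sub_cancel]
        have : (k' + 1) * n = k' * n + n := by ring
        omega
      omega
    · omega
  have hgR : g.natDegree ≤ k * R := by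
    have h9 := natDegree_pow_sub (k := k) (by omega) hkF (wp_monic r₀) (wp_monic r')
      (wp_natDegree r₀) (wp_natDegree r') (fun h => hr₀' (wp_inj h))
    have h10 : (wp r₀ - wp r').natDegree < R := by
      have h3 : wp r₀ - wp r' = (r₀ : F[X]) - (r' : F[X]) := by unfold wp; ring
      have h4 : (r₀ : F[X]) - (r' : F[X]) ∈ degreeLT F R := Submodule.sub_mem _ r₀.2 r'.2
      obtain ⟨e, rfl⟩ : ∃ e, R = e + 1 := ⟨R - 1, by omega⟩
      rw [h3]
      rw [mem_V_succ_iff] at h4
      omega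
    have hkR : (k - 1) * R + R = k * R := by
      obtain ⟨k', rfl⟩ : ∃ k', k = k' + 1 := ⟨k - 1, by omega⟩
      simp only [Nat.add_sub_cancel]; ring
    have h11 : g.natDegree ≤ (wp r₀ ^ k - wp r' ^ k).natDegree := by
      by_contra hlt
      push Not at hlt
      exact hgmin _ h9.2 hlt (hA r₀ hr₀).2
    omega
  refine ⟨g, hg0, hgR, ?_⟩
  -- counting
  have h12 : A.card ≤ 1 + (A.erase r').card := by
    have := Finset.card_erase_add_one (s := A) (a := r')
    by_cases hm : r' ∈ A
    · have := this hm; omega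
    · rw [Finset.erase_eq_of_notMem hm]; omega
  refine le_trans h12 ?_
  apply Nat.add_le_add_left
  have h13 : (A.erase r').card = ((A.erase r').image wp).card := by
    rw [Finset.card_image_of_injective _ (fun _ _ h => wp_inj h)]
  rw [h13]
  have hdvd' : ∀ r ∈ A.erase r', g ∣ wp r ^ k - wp r' ^ k := by
    intro r hr
    have hne := Finset.ne_of_mem_erase hr
    have hrA := Finset.mem_of_mem_erase hr
    have h9 := natDegree_pow_sub (k := k) (by omega) hkF (wp_monic r) (wp_monic r')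
      (wp_natDegree r) (wp_natDegree r') (fun h => hne (wp_inj h))
    have h10 : (wp r - wp r').natDegree < R := by
      have h3 : wp r - wp r' = (r : F[X]) - (r' : F[X]) := by unfold wp; ring
      have h4 : (r : F[X]) - (r' : F[X]) ∈ degreeLT F R := Submodule.sub_mem _ r.2 r'.2
      obtain ⟨e, rfl⟩ : ∃ e, R = e + 1 := ⟨R - 1, by omega⟩
      rw [h3]
      rw [mem_V_succ_iff] at h4
      omega
    have hkR : (k - 1) * R + R = k * R := by
      obtain ⟨k', rfl⟩ : ∃ k', k = k' + 1 := ⟨k - 1, by omega⟩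
      simp only [Nat.add_sub_cancel]; ring
    exact dvd_of_kill hg0 hgK hgmin (hA r hrA).2 (by omega)
  apply card_roots_mod (show 0 < k by omega) hkF hg0 (wp r' ^ k)
  · intro x hx
    obtain ⟨r, hr, rfl⟩ := Finset.mem_image.1 hx
    have hirr := (hA r (Finset.mem_of_mem_erase hr)).1
    refine (EuclideanDomain.dvd_or_coprime (wp r) g hirr).resolve_left ?_
    intro hd
    have h14 : wp r ∣ wp r ^ k - wp r' ^ k := dvd_trans hd (hdvd' r hr)
    have h15 : wp r ∣ wp r' ^ k := by
      have h16 : wp r ∣ wp r ^ k := dvd_pow_self _ (by omega)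
      exact (dvd_sub_right h16).1 h14
    have h17 : wp r ∣ wp r' := hirr.prime.dvd_of_dvd_pow h15
    have h18 : wp r = wp r' := eq_of_monic_of_associated (wp_monic r) (wp_monic r')
      (hirr.associated_of_dvd hr' h17)
    exact Finset.ne_of_mem_erase hr (wp_inj h18)
  · intro x hx
    obtain ⟨r, hr, rfl⟩ := Finset.mem_image.1 hx
    exact hdvd' r hr
  · intro x hx y hy hxy
    obtain ⟨r, hr, rfl⟩ := Finset.mem_image.1 hx
    obtain ⟨r₂, hr₂, rfl⟩ := Finset.mem_image.1 hy
    by_contra hne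
    have hne' : r ≠ r₂ := fun h => hne (by rw [h])
    have h19 := (hdiff r (Finset.mem_of_mem_erase hr) r₂ (Finset.mem_of_mem_erase hr₂) hne').2
    have h20 := natDegree_le_of_dvd hxy (sub_ne_zero.2 hne)
    omega

end Pool.Agent.H598.TK
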