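import Pool.Agent.H598.TK.Final2

/-!
# Strict representations
-/

namespace Pool.Agent.H598.TK

open Finset Polynomial

lemma choose_ne {F : Type*} [Field F] {k : ℕ} (hF : 0 < ringChar F) (hchar : k < ringChar F)
    (a : ℕ) (ha : a ≤ k) : ((k.choose a : ℕ) : F) ≠ 0 := by
  intro h0
  have h1 : ringChar F ∣ k.choose a := ringChar.dvd h0
  have hp : Nat.Prime (ringChar F) := by
    rcases CharP.char_is_prime_or_zero F (ringChar F) with h | h
    · exact h
    · omega
  have h2 : k.choose a ∣ k.factorial :=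
    ⟨a.factorial * (k - a).factorial, by rw [← Nat.choose_mul_factorial_mul_factorial ha]; ring⟩
  have h3 := (Nat.Prime.dvd_factorial hp).1 (h1.trans h2)
  omega

/-- Strict representations of all polynomials of large degree. -/
theorem strict_large {F : Type*} [Field F] [Fintype F] {k u : ℕ} (hk : 2 ≤ k) (hu : 1 ≤ u)
    (huk : u ≤ k) (hch : ∀ a, a ≤ k → ((k.choose a : ℕ) : F) ≠ 0)
    (hq : (2 * k) ^ (12 * k ^ 2) ≤ Fintype.card F ^ u) :
    ∃ D : ℕ, ∀ m : F[X], D ≤ m.natDegree →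
      ∃ x : Fin (2 * k + 2 * u) → F[X],
        (∀ i, k * (x i).natDegree < m.natDegree + k) ∧ ∑ i, x i ^ k = m := by
  obtain ⟨P₀, hP₀⟩ := rep_box hk hu huk hch hq
  refine ⟨k * P₀, fun m hm => ?_⟩
  set P := (m.natDegree + (k - 1)) / k with hP
  have h1 : k * P ≤ m.natDegree + (k - 1) := Nat.mul_div_le _ _
  have h2 : m.natDegree ≤ k * P := by
    have h3 := Nat.div_add_mod (m.natDegree + (k - 1)) k
    have h4 : (m.natDegree + (k - 1)) % k < k := Nat.mod_lt _ (by omega)
    rw [← hP] at h3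
    omega
  have h5 : P₀ ≤ P := by
    rw [hP, Nat.le_div_iff_mul_le (by omega), mul_comm]
    omega
  obtain ⟨x, hx, hsum⟩ := hP₀ P h5 m (FQ.mem_V_succ_iff.2 h2)
  have e : 2 * k + 2 * u = 2 * k + u + u := by ring
  rw [e]
  refine ⟨x, fun i => ?_, hsum⟩
  have := Nat.mul_le_mul_left k (hx i)
  omega

end Pool.Agent.H598.TK
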