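import Pool.Agent.H598.TK.Roots
import Pool.Agent.H598.DG.Levels

/-!
# Units modulo a polynomial and the supremum bound for complete sums
-/

namespace Pool.Agent.H598.TK

open Finset Polynomial Pool.Agent.H598.FQ Pool.Agent.H598.DG
open scoped Classical

variable {F : Type*} [Field F]

lemma exists_monic_factor {g : F[X]} (hg : g.Monic) (hd : 0 < g.natDegree) :
    ∃ p g1 : F[X], p.Monic ∧ Irreducible p ∧ g1.Monic ∧ g = p * g1 := by
  have h1 : ¬ IsUnit g := by
    intro h
    have := natDegree_eq_zero_of_isUnit h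
    omega
  obtain ⟨z, hz, hzg⟩ := WfDvdMonoid.exists_irreducible_factor h1 hg.ne_zero
  obtain ⟨p, hp, _⟩ := exists_pf hg.ne_zero hz hzg
  obtain ⟨g1, hg1⟩ := pf_dvd hp
  refine ⟨p, g1, pf_monic hp, pf_irred hp, ?_, hg1⟩
  have := hg
  rw [hg1] at this
  exact (pf_monic hp).of_mul_monic_left this

section
variable [Fintype F]

/-- The units modulo `g`. -/
noncomputable def Un (g : F[X]) (d : ℕ) : Finset (degreeLT F d) :=
  Finset.univ.filter (fun u => IsCoprime (u : F[X]) g)

lemma mem_Un {g : F[X]} {d : ℕ} {u : degreeLT F d} : u ∈ Un g d ↔ IsCoprime (u : F[X]) g := by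
  rw [Un, Finset.mem_filter]
  exact ⟨fun h => h.2, fun h => ⟨Finset.mem_univ _, h⟩⟩

theorem card_Un : ∀ (d : ℕ) (g : F[X]), g.Monic → g.natDegree = d →
    (Fintype.card F - 1) ^ d ≤ (Un g d).card := by
  intro d
  induction d using Nat.strong_induction_on with
  | _ d ih =>
  intro g hg hgd
  rcases Nat.eq_zero_or_pos d with h0 | hpos
  · subst h0
    rw [pow_zero]
    apply Finset.card_pos.2
    refine ⟨0, mem_Un.2 ?_⟩
    have h1 : g = 1 := by
      have := hg
      rw [eq_C_of_natDegree_eq_zero hgd] at this ⊢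
      rw [Monic, leadingCoeff_C] at this
      rw [this, C_1]
    rw [h1]
    exact isCoprime_one_right
  · obtain ⟨p, g1, hpm, hp, hg1, hpg⟩ := exists_monic_factor hg (by omega)
    set δ := p.natDegree with hδ
    set d1 := g1.natDegree with hd1
    have hδ1 : 1 ≤ δ := hp.natDegree_pos
    have hdd : d1 + δ = d := by
      rw [← hgd, hpg, natDegree_mul hp.ne_zero hg1.ne_zero, add_comm]
    have h1 := ih d1 (by omega) g1 hg1 rfl
    have hmem : ∀ (v : degreeLT F d1) (z : degreeLT F δ),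
        (v : F[X]) + g1 * (z : F[X]) ∈ degreeLT F d := by
      intro v z
      apply Submodule.add_mem
      · exact V_mono (by omega) v.2
      · have := mul_mem_VN (le_refl g1.natDegree) z.2
        rwa [← hd1, add_comm, hdd] at this
    let e : degreeLT F d1 × degreeLT F δ → degreeLT F d :=
      fun vz => ⟨(vz.1 : F[X]) + g1 * (vz.2 : F[X]), hmem vz.1 vz.2⟩
    have hinj : Function.Injective e := by
      rintro ⟨v, z⟩ ⟨v', z'⟩ h
      have h2 : (v : F[X]) + g1 * (z : F[X]) = (v' : F[X]) + g1 * (z' : F[X]) :=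
        congrArg Subtype.val h
      have h3 : (v : F[X]) = (v' : F[X]) := by
        rw [← mod_eq_self hg1 hd1.symm v.2, ← mod_eq_self hg1 hd1.symm v'.2]
        apply mod_eq_of_dvd hg1
        exact ⟨(z' : F[X]) - (z : F[X]), by linear_combination h2⟩
      have h4 : (z : F[X]) = (z' : F[X]) := by
        rw [h3] at h2
        exact mul_left_cancel₀ hg1.ne_zero (add_left_cancel h2)
      exact Prod.ext (Subtype.ext h3) (Subtype.ext h4)
    let Good : degreeLT F d1 → Finset (degreeLT F δ) :=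
      fun v => Finset.univ.filter (fun z => IsCoprime ((v : F[X]) + g1 * (z : F[X])) g)
    have hgood : ∀ v ∈ Un g1 d1, (Fintype.card F - 1) ^ δ ≤ (Good v).card := by
      intro v hv
      have hv' := mem_Un.1 hv
      have hvz : ∀ z : F[X], IsCoprime ((v : F[X]) + g1 * z) g1 := by
        intro z
        exact (IsCoprime.add_mul_left_left_iff).2 hv'
      by_cases hpd : p ∣ g1
      · have hall : Good v = Finset.univ := by
          rw [Finset.eq_univ_iff_forall]
          intro z
          rw [Finset.mem_filter]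
          refine ⟨Finset.mem_univ _, ?_⟩
          rw [hpg]
          exact IsCoprime.mul_right ((hvz z).of_isCoprime_of_dvd_right hpd) (hvz z)
        rw [hall, Finset.card_univ, card_V]
        exact Nat.pow_le_pow_left (Nat.sub_le _ _) _
      · have hcop : IsCoprime p g1 := (EuclideanDomain.dvd_or_coprime p g1 hp).resolve_left hpd
        have hbad : (Finset.univ.filter (fun z : degreeLT F δ =>
            ¬ IsCoprime ((v : F[X]) + g1 * (z : F[X])) g)).card ≤ 1 := by
          rw [Finset.card_le_one]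
          intro z hz z' hz'
          rw [Finset.mem_filter] at hz hz'
          have hb : ∀ z : degreeLT F δ, ¬ IsCoprime ((v : F[X]) + g1 * (z : F[X])) g →
              p ∣ (v : F[X]) + g1 * (z : F[X]) := by
            intro z hz
            by_contra hnd
            apply hz
            rw [hpg]
            refine IsCoprime.mul_right ?_ (hvz z)
            exact ((EuclideanDomain.dvd_or_coprime p _ hp).resolve_left hnd).symm
          have h5 := dvd_sub (hb z hz.2) (hb z' hz'.2)
          have h6 : (v : F[X]) + g1 * (z : F[X]) - ((v : F[X]) + g1 * (z' : F[X]))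
              = g1 * ((z : F[X]) - (z' : F[X])) := by ring
          rw [h6] at h5
          have h7 := hcop.dvd_of_dvd_mul_left h5
          apply Subtype.ext
          rw [← mod_eq_self hpm hδ.symm z.2, ← mod_eq_self hpm hδ.symm z'.2]
          exact mod_eq_of_dvd hpm h7
        have hsum : (Good v).card + (Finset.univ.filter (fun z : degreeLT F δ =>
            ¬ IsCoprime ((v : F[X]) + g1 * (z : F[X])) g)).card = Fintype.card F ^ δ := by
          rw [← card_V (F := F) δ, ← Finset.card_univ]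
          exact Finset.card_filter_add_card_filter_not _
        have hlt : (Fintype.card F - 1) ^ δ < Fintype.card F ^ δ := by
          apply Nat.pow_lt_pow_left _ (by omega)
          have : 0 < Fintype.card F := Fintype.card_pos
          omega
        omega
    have h8 : ((Un g1 d1).sigma Good).card ≤ (Un g d).card := by
      apply Finset.card_le_card_of_injOn (fun s => e (s.1, s.2))
      · rintro ⟨v, z⟩ hs
        rw [Finset.mem_coe, Finset.mem_sigma] at hs
        rw [Finset.mem_coe, mem_Un]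
        exact (Finset.mem_filter.1 hs.2).2
      · rintro ⟨v, z⟩ _ ⟨v', z'⟩ _ h
        have := hinj h
        rw [Prod.mk.injEq] at this
        obtain ⟨rfl, rfl⟩ := this
        rfl
    rw [Finset.card_sigma] at h8
    refine le_trans ?_ h8
    calc (Fintype.card F - 1) ^ d = (Fintype.card F - 1) ^ d1 * (Fintype.card F - 1) ^ δ := by
          rw [← pow_add, hdd]
      _ ≤ (Un g1 d1).card * (Fintype.card F - 1) ^ δ := Nat.mul_le_mul_right _ h1
      _ = ∑ _v ∈ Un g1 d1, (Fintype.card F - 1) ^ δ := by rw [Finset.sum_const, smul_eq_mul]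
      _ ≤ _ := Finset.sum_le_sum hgood

/-- Complete sums are invariant under multiplication of the functional by `k`-th powers of
units. -/
lemma Cs_unit (ψ : AddChar F ℂ) (L : F[X] →ₗ[F] F) {g : F[X]} {d : ℕ} (hg : g.Monic)
    (hd : g.natDegree = d) (h : F[X]) (k : ℕ) {u : F[X]} (hu : IsCoprime u g) :
    Cs ψ (Lm L g (h * u ^ k)) k d = Cs ψ (Lm L g h) k d := by
  let e : degreeLT F d → degreeLT F d := fun v => ⟨(u * (v : F[X])) %ₘ g, mod_mem hg hd _⟩
  have hinj : Function.Injective e := by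
    intro v v' h
    have h2 : (u * (v : F[X])) %ₘ g = (u * (v' : F[X])) %ₘ g := congrArg Subtype.val h
    have h3 : g ∣ u * ((v : F[X]) - v') := by
      have e1 := dvd_sub_mod g (u * (v : F[X]))
      have e2 := dvd_sub_mod g (u * (v' : F[X]))
      rw [h2] at e1
      have := dvd_sub e1 e2
      have e3 : u * (v : F[X]) - (u * (v' : F[X])) %ₘ g
          - (u * (v' : F[X]) - (u * (v' : F[X])) %ₘ g) = u * ((v : F[X]) - v') := by ring
      rwa [e3] at this
    have h5 : g ∣ (v : F[X]) - v' := hu.symm.dvd_of_dvd_mul_left h3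
    have h6 : (v : F[X]) %ₘ g = (v' : F[X]) %ₘ g := mod_eq_of_dvd hg h5
    rw [mod_eq_self hg hd v.2, mod_eq_self hg hd v'.2] at h6
    exact Subtype.ext h6
  have hbij : Function.Bijective e := Finite.injective_iff_bijective.1 hinj
  unfold Cs
  rw [← Function.Bijective.sum_comp hbij
    (fun z : degreeLT F d => ψ (Lm L g h ((z : F[X]) ^ k)))]
  apply Finset.sum_congr rfl
  intro v _
  congr 1
  change Lm L g (h * u ^ k) ((v : F[X]) ^ k) = Lm L g h (((u * (v : F[X])) %ₘ g) ^ k)
  rw [Lm_pow_mod L hg, Lm_apply, Lm_apply]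
  congr 2
  ring

/-- If `h u ^ k` and `h u' ^ k` give the same functional, then `u ^ k = u' ^ k` modulo `g`. -/
lemma dvd_of_agree {L : F[X] →ₗ[F] F} {g : F[X]} {d Nk : ℕ} (hNk : 1 ≤ Nk) (hg : g.Monic)
    (hd : g.natDegree = d) (hK : Kn L Nk g)
    (hmin : ∀ h : F[X], h ≠ 0 → h.natDegree < d → ¬ Kn L Nk h) {a b : F[X]}
    (h5 : ∀ w ∈ degreeLT F d, Lm L g a w = Lm L g b w) : g ∣ a - b := by
  rw [← modByMonic_eq_zero_iff_dvd hg]
  by_contra hne
  set r := (a - b) %ₘ g with hr
  have hr2 := mod_mem hg hd (a - b)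
  rw [← hr] at hr2
  have hrd : r.natDegree < d := by
    rcases Nat.eq_zero_or_pos d with h0 | hpos
    · subst h0
      exfalso
      apply hne
      ext j
      rw [mem_V_iff.1 hr2 j (Nat.zero_le _), coeff_zero]
    · obtain ⟨e, rfl⟩ : ∃ e, d = e + 1 := ⟨d - 1, by omega⟩
      rw [mem_V_succ_iff] at hr2
      omega
  apply hmin r hne hrd
  intro y hy
  have h6 : r * y ∈ degreeLT F (Nk + d) := by
    apply V_mono _ (mul_mem_VN (le_refl r.natDegree) hy)
    omega
  rw [redN hNk hg hd hK h6]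
  have h7 : (r * y) %ₘ g = ((a - b) * (y %ₘ g)) %ₘ g := by
    apply mod_eq_of_dvd hg
    obtain ⟨t1, ht1⟩ := dvd_sub_mod g (a - b)
    obtain ⟨t2, ht2⟩ := dvd_sub_mod g y
    refine ⟨(a - b) * t2 - t1 * y, ?_⟩
    rw [← hr] at ht1
    linear_combination (a - b) * ht2 - y * ht1
  rw [h7]
  have h8 := h5 (y %ₘ g) (mod_mem hg hd y)
  rw [Lm_apply, Lm_apply] at h8
  have h9 : (a - b) * (y %ₘ g) = a * (y %ₘ g) - b * (y %ₘ g) := by ring
  rw [h9]
  have h10 := map_sub (modByMonicHom g) (a * (y %ₘ g)) (b * (y %ₘ g))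
  simp only [modByMonicHom_apply] at h10
  rw [h10, map_sub, h8, sub_self]

/-- The number of units with the same functional. -/
lemma card_fiber_units {k : ℕ} (hk : 0 < k) (hkF : (k : F) ≠ 0) {L : F[X] →ₗ[F] F} {g : F[X]}
    {d Nk : ℕ} (hNk : 1 ≤ Nk) (hg : g.Monic)
    (hd : g.natDegree = d) (hK : Kn L Nk g)
    (hmin : ∀ h : F[X], h ≠ 0 → h.natDegree < d → ¬ Kn L Nk h) {h : F[X]}
    (hcop : IsCoprime h g) (A : Finset (degreeLT F d)) (hA : A ⊆ Un g d)
    (hfib : ∀ u ∈ A, ∀ u' ∈ A, ∀ w ∈ degreeLT F d,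
      Lm L g (h * (u : F[X]) ^ k) w = Lm L g (h * (u' : F[X]) ^ k) w) :
    A.card ≤ k ^ (pf g).card := by
  rcases Finset.eq_empty_or_nonempty A with h0 | ⟨u₀, hu₀⟩
  · rw [h0]; simp
  · have h3 : A.card = (A.image (Subtype.val : degreeLT F d → F[X])).card := by
      rw [Finset.card_image_of_injective _ Subtype.val_injective]
    rw [h3]
    apply card_roots_mod hk hkF hg.ne_zero ((u₀ : F[X]) ^ k)
    · intro x hx
      obtain ⟨u, hu, rfl⟩ := Finset.mem_image.1 hx
      exact mem_Un.1 (hA hu)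
    · intro x hx
      obtain ⟨u, hu, rfl⟩ := Finset.mem_image.1 hx
      apply hcop.symm.dvd_of_dvd_mul_left
      rw [mul_sub]
      exact dvd_of_agree hNk hg hd hK hmin (hfib u hu u₀ hu₀)
    · intro x hx y hy hxy
      obtain ⟨u, _, rfl⟩ := Finset.mem_image.1 hx
      obtain ⟨u', _, rfl⟩ := Finset.mem_image.1 hy
      rw [← mod_eq_self hg hd u.2, ← mod_eq_self hg hd u'.2]
      exact mod_eq_of_dvd hg hxy

/-- The supremum bound. -/
theorem sup_units {ψ : AddChar F ℂ} (hψ : ψ ≠ 1) {k : ℕ} (hk : 2 ≤ k)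
    (hch : ∀ a, a ≤ k → ((k.choose a : ℕ) : F) ≠ 0) {L : F[X] →ₗ[F] F} {g : F[X]} {d Nk : ℕ}
    (hd1 : 1 ≤ d) (hNk : 1 ≤ Nk) (hg : g.Monic) (hd : g.natDegree = d) (hK : Kn L Nk g)
    (hmin : ∀ h : F[X], h ≠ 0 → h.natDegree < d → ¬ Kn L Nk h) {h : F[X]}
    (hcop : IsCoprime h g) :
    ((Fintype.card F : ℝ) - 1) ^ d * ‖Cs ψ (Lm L g h) k d‖ ^ (2 * k)
      ≤ (k : ℝ) ^ d * ((2 * k : ℝ) ^ (k * (d - 1) + 1) * (Fintype.card F : ℝ) ^ (2 * k * d)) := by
  obtain ⟨e, rfl⟩ : ∃ e, d = e + 1 := ⟨d - 1, by omega⟩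
  simp only [Nat.add_sub_cancel]
  have hkF : (k : F) ≠ 0 := by
    have := hch 1 (by omega)
    rwa [Nat.choose_one_right] at this
  set q : ℝ := (Fintype.card F : ℝ) with hq
  let vec : degreeLT F (e + 1) → (Fin (k * e + 1) → F) :=
    fun u j => Lm L g (h * (u : F[X]) ^ k) (X ^ (j : ℕ))
  have hvec : ∀ u : degreeLT F (e + 1),
      Cs ψ (lin (vec u)) k (e + 1) = Cs ψ (Lm L g (h * (u : F[X]) ^ k)) k (e + 1) := by
    intro u
    unfold Cs
    apply Finset.sum_congr rfl
    intro x _
    rw [lin_vec (Lm L g (h * (u : F[X]) ^ k)) (pow_mem_V x.2)]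
  have hfib : ∀ β, ((Un g (e + 1)).filter (fun u => vec u = β)).card ≤ k ^ (e + 1) := by
    intro β
    refine le_trans (card_fiber_units (show 0 < k by omega) hkF hNk hg hd hK hmin hcop _
      (Finset.filter_subset _ _) ?_) ?_
    · intro u hu u' hu' w hw
      have h4 : vec u = vec u' := by
        rw [(Finset.mem_filter.1 hu).2, (Finset.mem_filter.1 hu').2]
      have hw' : w ∈ degreeLT F (k * e + 1) := by
        apply V_mono _ hw
        have := Nat.mul_le_mul_right e (show 1 ≤ k by omega)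
        omega
      rw [← lin_vec (Lm L g (h * (u : F[X]) ^ k)) hw',
        ← lin_vec (Lm L g (h * (u' : F[X]) ^ k)) hw']
      change lin (vec u) w = lin (vec u') w
      rw [h4]
    · refine Nat.pow_le_pow_right (by omega) ?_
      have := card_pf_le hg.ne_zero
      rwa [hd] at this
  have h1 := sum_fiber_le (Un g (e + 1)) vec (fun β => ‖Cs ψ (lin β) k (e + 1)‖ ^ (2 * k))
    (fun β => by positivity) ((k : ℝ) ^ (e + 1)) (by
      intro β
      have h11 : (((Un g (e + 1)).filter (fun u => vec u = β)).card : ℝ) ≤ (k : ℝ) ^ (e + 1) := by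
        exact_mod_cast hfib β
      convert h11)
  have h12 : ∀ u ∈ Un g (e + 1), ‖Cs ψ (lin (vec u)) k (e + 1)‖ ^ (2 * k)
      = ‖Cs ψ (Lm L g h) k (e + 1)‖ ^ (2 * k) := by
    intro u hu
    rw [hvec, Cs_unit ψ L hg hd h k (mem_Un.1 hu)]
  rw [Finset.sum_congr rfl h12, Finset.sum_const, nsmul_eq_mul] at h1
  have h13 := mean (P := e) hψ (show 0 < k by omega) hch (fun _ => 1) (fun _ => by simp)
  simp only [one_mul] at h13
  have h14 : q ^ (k * e + 1) * (JB F k e : ℝ) = (2 * k : ℝ) ^ (k * e + 1) * q ^ (2 * k * (e + 1))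
    := (JB_mul (F := F) k e).resolve_right (by omega)
  rw [h14] at h13
  have h15 : (q - 1) ^ (e + 1) ≤ ((Un g (e + 1)).card : ℝ) := by
    have := card_Un (e + 1) g hg hd
    have h16 : (((Fintype.card F - 1) ^ (e + 1) : ℕ) : ℝ) ≤ ((Un g (e + 1)).card : ℝ) := by
      exact_mod_cast this
    rw [Nat.cast_pow, Nat.cast_sub Fintype.card_pos, Nat.cast_one] at h16
    exact h16
  calc (q - 1) ^ (e + 1) * ‖Cs ψ (Lm L g h) k (e + 1)‖ ^ (2 * k)
      ≤ ((Un g (e + 1)).card : ℝ) * ‖Cs ψ (Lm L g h) k (e + 1)‖ ^ (2 * k) :=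
        mul_le_mul_of_nonneg_right h15 (by positivity)
    _ ≤ (k : ℝ) ^ (e + 1) * ∑ β : Fin (k * e + 1) → F, ‖Cs ψ (lin β) k (e + 1)‖ ^ (2 * k) := h1
    _ ≤ _ := mul_le_mul_of_nonneg_left h13 (by positivity)

end

end Pool.Agent.H598.TK
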