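import Pool.Agent.H598.TK.Kspace
import Pool.Agent.H598.DG.Minor

/-!
# Exponential sums over structured variables
-/

namespace Pool.Agent.H598.TK

open Finset Polynomial Pool.Agent.H598.FQ Pool.Agent.H598.DG
open scoped Classical

variable {F : Type*} [Field F] [Fintype F]

/-- The sum over the second factor. -/
noncomputable def fw (ψ : AddChar F ℂ) (L : F[X] →ₗ[F] F) (k n : ℕ) (w : F[X]) : ℂ :=
  ∑ y : degreeLT F n, ψ (L ((w * (y : F[X])) ^ k))

/-- The sum over the first factor. -/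
noncomputable def gs (ψ : AddChar F ℂ) (L : F[X] →ₗ[F] F) (k R : ℕ) (n : F[X]) : ℂ :=
  ∑ r ∈ Wr F R, ψ (L (wp r ^ k * n))

/-- The power of the modulus of an exponential sum. -/
lemma norm_pow_eq {ψ : AddChar F ℂ} (k : ℕ) {W : Type*} [Fintype W] (L : F[X] →ₗ[F] F)
    (φ : W → F[X]) :
    ((‖∑ w, ψ (L (φ w))‖ ^ (2 * k) : ℝ) : ℂ)
      = ∑ x : Fin (2 * k) → W, ψ (L (∑ i, C (sg F k i) * φ (x i))) := by
  set z := ∑ w, ψ (L (φ w)) with hz
  have e1 : ((‖z‖ ^ (2 * k) : ℝ) : ℂ) = ∏ i : Fin (2 * k), (if (i : ℕ) < k then z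
      else (starRingEnd ℂ) z) := by
    have e2 : ((‖z‖ ^ (2 * k) : ℝ) : ℂ) = z ^ k * ((starRingEnd ℂ) z) ^ k := by
      rw [← mul_pow, Complex.mul_conj, pow_mul, Complex.normSq_eq_norm_sq]
      push_cast
      rfl
    rw [e2, Fin.prod_univ_eq_prod_range (fun i => if i < k then z else (starRingEnd ℂ) z) (2 * k),
      two_mul, Finset.prod_range_add]
    congr 1
    · rw [Finset.prod_congr rfl (g := fun _ => z)]
      · simp
      · intro i hi
        rw [if_pos (Finset.mem_range.1 hi)]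
    · rw [Finset.prod_congr rfl (g := fun _ => (starRingEnd ℂ) z)]
      · simp
      · intro i _
        rw [if_neg (by omega)]
  have e3 : ∀ i : Fin (2 * k), (if (i : ℕ) < k then z else (starRingEnd ℂ) z)
      = ∑ w, ψ (L (C (sg F k i) * φ w)) := by
    intro i
    have e4 : ∀ w, L (C (sg F k i) * φ w) = sg F k i * L (φ w) := by
      intro w
      rw [← smul_eq_C_mul, map_smul, smul_eq_mul]
    by_cases hi : (i : ℕ) < k
    · rw [if_pos hi, hz]
      apply Finset.sum_congr rfl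
      intro w _
      rw [e4]
      simp only [sg, if_pos hi, one_mul]
    · rw [if_neg hi, hz, map_sum]
      apply Finset.sum_congr rfl
      intro w _
      rw [e4]
      simp only [sg, if_neg hi, neg_mul, one_mul]
      rw [AddChar.map_neg_eq_conj]
  rw [e1, Finset.prod_congr rfl (fun i _ => e3 i), sum_prod_eq]
  apply Finset.sum_congr rfl
  intro x _
  rw [map_sum, char_sum]

lemma sum_fw_le {ψ : AddChar F ℂ} {k : ℕ} (hk : 0 < k)
    (hch : ∀ a, a ≤ k → ((k.choose a : ℕ) : F) ≠ 0) (L : F[X] →ₗ[F] F) (R n : ℕ) :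
    ∑ r ∈ Wr F R, ‖fw ψ L k (n + 1) (wp r)‖ ^ (2 * k)
      ≤ (JB F k n : ℝ) * ∑ m : degreeLT F (k * n + 1), ‖gs ψ L k R (m : F[X])‖ := by
  have hmem : ∀ x : Fin (2 * k) → degreeLT F (n + 1),
      ∑ i, C (sg F k i) * (x i : F[X]) ^ k ∈ degreeLT F (k * n + 1) := by
    intro x
    apply Submodule.sum_mem
    intro i _
    rw [← smul_eq_C_mul]
    exact Submodule.smul_mem _ _ (pow_mem_V (x i).2)
  let v : (Fin (2 * k) → degreeLT F (n + 1)) → degreeLT F (k * n + 1) :=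
    fun x => ⟨∑ i, C (sg F k i) * (x i : F[X]) ^ k, hmem x⟩
  have h1 : ((∑ r ∈ Wr F R, ‖fw ψ L k (n + 1) (wp r)‖ ^ (2 * k) : ℝ) : ℂ)
      = ∑ x : Fin (2 * k) → degreeLT F (n + 1), gs ψ L k R (v x : F[X]) := by
    rw [Complex.ofReal_sum]
    have h2 : ∀ r ∈ Wr F R, ((‖fw ψ L k (n + 1) (wp r)‖ ^ (2 * k) : ℝ) : ℂ)
        = ∑ x : Fin (2 * k) → degreeLT F (n + 1), ψ (L (wp r ^ k * (v x : F[X]))) := by
      intro r _
      unfold fw
      rw [norm_pow_eq k L (fun y : degreeLT F (n + 1) => (wp r * (y : F[X])) ^ k)]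
      apply Finset.sum_congr rfl
      intro x _
      congr 2
      simp only [v]
      rw [Finset.mul_sum]
      apply Finset.sum_congr rfl
      intro i _
      rw [mul_pow]; ring
    rw [Finset.sum_congr rfl h2, Finset.sum_comm]
    rfl
  have h3 : ∑ r ∈ Wr F R, ‖fw ψ L k (n + 1) (wp r)‖ ^ (2 * k)
      ≤ ∑ x : Fin (2 * k) → degreeLT F (n + 1), ‖gs ψ L k R (v x : F[X])‖ := by
    have h4 : ∑ r ∈ Wr F R, ‖fw ψ L k (n + 1) (wp r)‖ ^ (2 * k)
        = ‖((∑ r ∈ Wr F R, ‖fw ψ L k (n + 1) (wp r)‖ ^ (2 * k) : ℝ) : ℂ)‖ := by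
      rw [Complex.norm_real, Real.norm_of_nonneg]
      exact Finset.sum_nonneg (fun _ _ => by positivity)
    rw [h4, h1]
    exact norm_sum_le _ _
  refine le_trans h3 ?_
  have h5 := sum_fiber_le (Finset.univ : Finset (Fin (2 * k) → degreeLT F (n + 1))) v
    (fun m => ‖gs ψ L k R (m : F[X])‖) (fun m => norm_nonneg _) ((JB F k n : ℕ) : ℝ) (by
      intro m
      have h6 := count_V (P := n) hk hch (sg F k) (sg_ne k) (m : F[X])
      have h7 : (Finset.univ.filter (fun x => v x = m)).card ≤ JB F k n := by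
        refine le_trans ?_ h6
        rw [Nat.card_eq_fintype_card, Fintype.card_subtype]
        apply Finset.card_le_card
        intro x hx
        rw [Finset.mem_filter] at hx ⊢
        refine ⟨Finset.mem_univ _, ?_⟩
        rw [← hx.2]
      have h8 : ((Finset.univ.filter (fun x => v x = m)).card : ℝ) ≤ ((JB F k n : ℕ) : ℝ) := by
        exact_mod_cast h7
      convert h8)
  exact h5

/-- The pairs of first factors which are not separated by the functional. -/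
noncomputable def prs (L : F[X] →ₗ[F] F) (k R b : ℕ) : Finset (degreeLT F R × degreeLT F R) :=
  ((Wr F R) ×ˢ (Wr F R)).filter (fun x => Kn L b (wp x.1 ^ k - wp x.2 ^ k))

lemma sum_gs_sq {ψ : AddChar F ℂ} (hψ : ψ ≠ 1) (L : F[X] →ₗ[F] F) (k R b : ℕ) :
    ∑ m : degreeLT F b, ‖gs ψ L k R (m : F[X])‖ ^ 2
      = (Fintype.card F : ℝ) ^ b * ((prs L k R b).card : ℝ) := by
  have h1 : ((∑ m : degreeLT F b, ‖gs ψ L k R (m : F[X])‖ ^ 2 : ℝ) : ℂ)
      = (((Fintype.card F : ℝ) ^ b * ((prs L k R b).card : ℝ) : ℝ) : ℂ) := by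
    rw [Complex.ofReal_sum]
    have h2 : ∀ m : degreeLT F b, ((‖gs ψ L k R (m : F[X])‖ ^ 2 : ℝ) : ℂ)
        = ∑ x ∈ (Wr F R) ×ˢ (Wr F R), ψ (L ((wp x.1 ^ k - wp x.2 ^ k) * (m : F[X]))) := by
      intro m
      have e1 : ((‖gs ψ L k R (m : F[X])‖ ^ 2 : ℝ) : ℂ)
          = gs ψ L k R (m : F[X]) * (starRingEnd ℂ) (gs ψ L k R (m : F[X])) := by
        rw [Complex.mul_conj, Complex.normSq_eq_norm_sq]
      rw [e1]
      unfold gs
      rw [map_sum, Finset.sum_mul_sum, Finset.sum_product]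
      apply Finset.sum_congr rfl
      intro x _
      apply Finset.sum_congr rfl
      intro y _
      rw [← AddChar.map_neg_eq_conj, ← AddChar.map_add_eq_mul, sub_mul, map_sub, sub_eq_add_neg]
    rw [Finset.sum_congr rfl (fun m _ => h2 m), Finset.sum_comm]
    have h3 : ∀ x ∈ (Wr F R) ×ˢ (Wr F R),
        ∑ m : degreeLT F b, ψ (L ((wp x.1 ^ k - wp x.2 ^ k) * (m : F[X])))
        = if Kn L b (wp x.1 ^ k - wp x.2 ^ k) then (Fintype.card F : ℂ) ^ b else 0 := by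
      intro x _
      have h4 := sum_char_lin hψ (W := degreeLT F b)
        ((L.comp (LinearMap.mulLeft F (wp x.1 ^ k - wp x.2 ^ k))).comp (degreeLT F b).subtype)
      have h5 : (∀ w : degreeLT F b, L ((wp x.1 ^ k - wp x.2 ^ k) * (w : F[X])) = 0)
          ↔ Kn L b (wp x.1 ^ k - wp x.2 ^ k) := by
        constructor
        · intro h y hy
          exact h ⟨y, hy⟩
        · intro h w
          exact h _ w.2
      by_cases h6 : Kn L b (wp x.1 ^ k - wp x.2 ^ k)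
      · rw [if_pos (by exact h5.2 h6)] at h4
        simp only [LinearMap.comp_apply, Submodule.subtype_apply, LinearMap.mulLeft_apply] at h4
        rw [if_pos h6, h4, card_V]
        push_cast; rfl
      · rw [if_neg (by exact fun h => h6 (h5.1 h))] at h4
        simp only [LinearMap.comp_apply, Submodule.subtype_apply, LinearMap.mulLeft_apply] at h4
        rw [if_neg h6, h4]
    rw [Finset.sum_congr rfl h3, ← Finset.sum_filter, Finset.sum_const, nsmul_eq_mul]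
    unfold prs
    push_cast
    rw [mul_comm]
  exact_mod_cast h1

lemma sum_fw_sq_le {ψ : AddChar F ℂ} (hψ : ψ ≠ 1) {k : ℕ} (hk : 0 < k)
    (hch : ∀ a, a ≤ k → ((k.choose a : ℕ) : F) ≠ 0) (L : F[X] →ₗ[F] F) (R n : ℕ) :
    (∑ r ∈ Wr F R, ‖fw ψ L k (n + 1) (wp r)‖ ^ (2 * k)) ^ 2
      ≤ ((2 * k : ℝ) ^ (k * n + 1)) ^ 2 * ((Fintype.card F : ℝ) ^ (n + 1)) ^ (4 * k)
        * ((prs L k R (k * n + 1)).card : ℝ) := by
  set q : ℝ := (Fintype.card F : ℝ) with hq
  have hq0 : 0 < q := by rw [hq]; exact_mod_cast Fintype.card_pos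
  set b := k * n + 1 with hb
  have h1 := sum_fw_le (ψ := ψ) hk hch L R n
  have h2 := sum_gs_sq hψ L k R b
  have h3 : (∑ m : degreeLT F b, ‖gs ψ L k R (m : F[X])‖) ^ 2
      ≤ q ^ b * (q ^ b * ((prs L k R b).card : ℝ)) := by
    rw [← h2]
    have h4 := Finset.sum_mul_sq_le_sq_mul_sq (Finset.univ : Finset (degreeLT F b))
      (fun _ => (1 : ℝ)) (fun m => ‖gs ψ L k R (m : F[X])‖)
    simp only [one_mul, one_pow, Finset.sum_const, Finset.card_univ, card_V, nsmul_eq_mul,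
      mul_one] at h4
    push_cast at h4
    exact h4
  have h5 : q ^ b * (JB F k n : ℝ) = (2 * k : ℝ) ^ b * q ^ (2 * k * (n + 1)) :=
    (JB_mul (F := F) k n).resolve_right (by omega)
  calc (∑ r ∈ Wr F R, ‖fw ψ L k (n + 1) (wp r)‖ ^ (2 * k)) ^ 2
      ≤ ((JB F k n : ℝ) * ∑ m : degreeLT F b, ‖gs ψ L k R (m : F[X])‖) ^ 2 := by
        apply pow_le_pow_left₀ _ h1
        exact Finset.sum_nonneg (fun _ _ => by positivity)
    _ = (JB F k n : ℝ) ^ 2 * (∑ m : degreeLT F b, ‖gs ψ L k R (m : F[X])‖) ^ 2 := by ring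
    _ ≤ (JB F k n : ℝ) ^ 2 * (q ^ b * (q ^ b * ((prs L k R b).card : ℝ))) :=
        mul_le_mul_of_nonneg_left h3 (by positivity)
    _ = (q ^ b * (JB F k n : ℝ)) ^ 2 * ((prs L k R b).card : ℝ) := by ring
    _ = _ := by
        rw [h5, mul_pow]
        congr 2
        rw [← pow_mul, ← pow_mul]
        congr 1; ring

omit [Fintype F] in
/-- The number of pairs which are not separated. -/
lemma card_prs [Fintype F] {k R n P ω : ℕ} (hk : 2 ≤ k) (hkF : (k : F) ≠ 0) {L : F[X] →ₗ[F] F}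
    (hR : 1 ≤ R) (hn : R + 1 ≤ n) (hnk : k ≤ n) (hP : R + n = P)
    (hL : mis L ((k - 1) * P) P)
    (hω : ∀ g : F[X], g ≠ 0 → g.natDegree ≤ k * R → (pf g).card ≤ ω) :
    (prs L k R (k * (n - 1) + 1)).card ≤ (Wr F R).card * (1 + k ^ ω) := by
  set b := k * (n - 1) + 1 with hb
  let A : degreeLT F R → Finset (degreeLT F R) :=
    fun r' => (Wr F R).filter (fun r => Kn L b (wp r ^ k - wp r' ^ k))
  have h1 : (prs L k R b).card ≤ ∑ r' ∈ Wr F R, (A r').card := by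
    rw [← Finset.card_sigma]
    apply Finset.card_le_card_of_injOn (fun x => (⟨x.2, x.1⟩ : (_ : degreeLT F R) × degreeLT F R))
    · intro x hx
      rw [Finset.mem_coe, prs, Finset.mem_filter, Finset.mem_product] at hx
      rw [Finset.mem_coe, Finset.mem_sigma]
      exact ⟨hx.1.2, Finset.mem_filter.2 ⟨hx.1.1, hx.2⟩⟩
    · rintro ⟨x, x'⟩ _ ⟨y, y'⟩ _ h
      simp only [Sigma.mk.injEq, heq_eq_eq] at h
      rw [Prod.mk.injEq]
      exact ⟨h.2, h.1⟩
  refine le_trans h1 ?_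
  rw [← smul_eq_mul, ← Finset.sum_const]
  apply Finset.sum_le_sum
  intro r' hr'
  have h2 := card_killed hk hkF hR hn hnk hP hL r' (mem_Wr.1 hr') (A r') (by
    intro r hr
    rw [Finset.mem_filter] at hr
    exact ⟨mem_Wr.1 hr.1, hr.2⟩)
  rcases h2 with h | h | ⟨g, hg0, hgd, h⟩
  · rw [h]; simp
  · rw [h, Finset.card_singleton]; omega
  · refine le_trans h ?_
    apply Nat.add_le_add_left
    exact Nat.pow_le_pow_right (by omega) (hω g hg0 hgd)

/-- The power mean inequality with natural exponents. -/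
lemma power_mean {ι : Type*} (s : Finset ι) (a : ι → ℝ) (ha : ∀ i, 0 ≤ a i) {u m : ℕ}
    (hu : 1 ≤ u) (hum : u ≤ m) :
    (∑ i ∈ s, a i ^ u) ^ m ≤ (s.card : ℝ) ^ (m - u) * (∑ i ∈ s, a i ^ m) ^ u := by
  rcases Finset.eq_empty_or_nonempty s with h0 | hne
  · subst h0
    simp only [Finset.sum_empty]
    rw [zero_pow (by omega), zero_pow (by omega), mul_zero]
  have hN : (0 : ℝ) < (s.card : ℝ) := by exact_mod_cast Finset.card_pos.2 hne
  set N : ℝ := (s.card : ℝ) with hNdef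
  have hu0 : (0 : ℝ) < u := by exact_mod_cast hu
  have hp : (1 : ℝ) ≤ (m : ℝ) / u := by
    rw [one_le_div hu0]
    exact_mod_cast hum
  have h1 := Real.rpow_arith_mean_le_arith_mean_rpow s (fun _ => 1 / N) (fun i => a i ^ u)
    (fun _ _ => by positivity) (by rw [Finset.sum_const, nsmul_eq_mul, ← hNdef]; field_simp)
    (fun i _ => pow_nonneg (ha i) u) hp
  have h2 : ∀ i, (a i ^ u) ^ ((m : ℝ) / u) = a i ^ m := by
    intro i
    rw [← Real.rpow_natCast (a i) u, ← Real.rpow_mul (ha i), mul_div_cancel₀ _ hu0.ne',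
      Real.rpow_natCast]
  simp only [h2] at h1
  rw [← Finset.mul_sum, ← Finset.mul_sum] at h1
  set A := ∑ i ∈ s, a i ^ u with hA
  set B := ∑ i ∈ s, a i ^ m with hB
  have hA0 : 0 ≤ A := Finset.sum_nonneg (fun i _ => pow_nonneg (ha i) u)
  have hB0 : 0 ≤ B := Finset.sum_nonneg (fun i _ => pow_nonneg (ha i) m)
  have h3 : (1 / N * A) ^ m ≤ (1 / N * B) ^ u := by
    have h4 : ((1 / N * A) ^ ((m : ℝ) / u)) ^ u = (1 / N * A) ^ m := by
      rw [← Real.rpow_natCast, ← Real.rpow_mul (by positivity), div_mul_cancel₀ _ hu0.ne',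
        Real.rpow_natCast]
    rw [← h4]
    exact pow_le_pow_left₀ (by positivity) h1 u
  rw [mul_pow, mul_pow, one_div, inv_pow, inv_pow] at h3
  have hNm : 0 < N ^ m := by positivity
  have h5 : A ^ m ≤ N ^ m * ((N ^ u)⁻¹ * B ^ u) := by
    calc A ^ m = N ^ m * ((N ^ m)⁻¹ * A ^ m) := by
          rw [← mul_assoc, mul_inv_cancel₀ hNm.ne', one_mul]
      _ ≤ _ := mul_le_mul_of_nonneg_left h3 hNm.le
  refine le_trans h5 (le_of_eq ?_)
  have h6 : N ^ m = N ^ (m - u) * N ^ u := by rw [← pow_add]; congr 1; omega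
  rw [h6]
  have : N ^ u ≠ 0 := by positivity
  field_simp

/-- The exponential sum over the structured variables. -/
noncomputable def FF (ψ : AddChar F ℂ) (L : F[X] →ₗ[F] F) (k R n u : ℕ) : ℂ :=
  ∑ r ∈ Wr F R, (fw ψ L k n (wp r)) ^ u

/-- The bound for the exponential sum over the structured variables. -/
theorem FF_bound {ψ : AddChar F ℂ} (hψ : ψ ≠ 1) {k : ℕ} (hk : 0 < k)
    (hch : ∀ a, a ≤ k → ((k.choose a : ℕ) : F) ≠ 0) (L : F[X] →ₗ[F] F) (R n u : ℕ)
    (hu : 1 ≤ u) (huk : u ≤ 2 * k) {μ : ℝ}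
    (hμ : ((prs L k R (k * n + 1)).card : ℝ) ≤ ((Wr F R).card : ℝ) * μ) :
    ‖FF ψ L k R (n + 1) u‖ ^ (4 * k) * ((Wr F R).card : ℝ) ^ u
      ≤ (((Wr F R).card : ℝ) * ((Fintype.card F : ℝ) ^ (n + 1)) ^ u) ^ (4 * k) *
        (((2 * k : ℝ) ^ (k * n + 1)) ^ 2 * μ) ^ u := by
  set q : ℝ := (Fintype.card F : ℝ) with hq
  have hq0 : 0 < q := by rw [hq]; exact_mod_cast Fintype.card_pos
  set N : ℝ := ((Wr F R).card : ℝ) with hN
  have hN0 : 0 ≤ N := by positivity
  set B := ∑ r ∈ Wr F R, ‖fw ψ L k (n + 1) (wp r)‖ ^ (2 * k) with hB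
  have hB0 : 0 ≤ B := Finset.sum_nonneg (fun _ _ => by positivity)
  have h1 : ‖FF ψ L k R (n + 1) u‖ ≤ ∑ r ∈ Wr F R, ‖fw ψ L k (n + 1) (wp r)‖ ^ u := by
    unfold FF
    refine le_trans (norm_sum_le _ _) ?_
    apply Finset.sum_le_sum
    intro r _
    rw [norm_pow]
  have h2 := power_mean (Wr F R) (fun r => ‖fw ψ L k (n + 1) (wp r)‖) (fun _ => norm_nonneg _)
    hu huk
  have h3 := sum_fw_sq_le hψ hk hch L R n
  rw [← hB, ← hq] at h3
  rw [← hB, ← hN] at h2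
  have h4 : B ^ 2 ≤ ((2 * k : ℝ) ^ (k * n + 1)) ^ 2 * (q ^ (n + 1)) ^ (4 * k) * (N * μ) :=
    le_trans h3 (mul_le_mul_of_nonneg_left hμ (by positivity))
  have h5 : ‖FF ψ L k R (n + 1) u‖ ^ (4 * k) ≤ (N ^ (2 * k - u)) ^ 2 * (B ^ 2) ^ u := by
    calc ‖FF ψ L k R (n + 1) u‖ ^ (4 * k)
        ≤ (∑ r ∈ Wr F R, ‖fw ψ L k (n + 1) (wp r)‖ ^ u) ^ (4 * k) :=
          pow_le_pow_left₀ (norm_nonneg _) h1 _
      _ = ((∑ r ∈ Wr F R, ‖fw ψ L k (n + 1) (wp r)‖ ^ u) ^ (2 * k)) ^ 2 := by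
          rw [← pow_mul]; congr 1; ring
      _ ≤ (N ^ (2 * k - u) * B ^ u) ^ 2 := by
          apply pow_le_pow_left₀ _ h2
          exact pow_nonneg (Finset.sum_nonneg (fun _ _ => by positivity)) _
      _ = (N ^ (2 * k - u)) ^ 2 * (B ^ 2) ^ u := by
          rw [mul_pow, ← pow_mul, ← pow_mul, ← pow_mul, mul_comm u 2]
  calc ‖FF ψ L k R (n + 1) u‖ ^ (4 * k) * N ^ u
      ≤ ((N ^ (2 * k - u)) ^ 2 * (B ^ 2) ^ u) * N ^ u :=
        mul_le_mul_of_nonneg_right h5 (by positivity)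
    _ ≤ ((N ^ (2 * k - u)) ^ 2 *
        (((2 * k : ℝ) ^ (k * n + 1)) ^ 2 * (q ^ (n + 1)) ^ (4 * k) * (N * μ)) ^ u) * N ^ u := by
        apply mul_le_mul_of_nonneg_right _ (by positivity)
        apply mul_le_mul_of_nonneg_left _ (by positivity)
        exact pow_le_pow_left₀ (by positivity) h4 u
    _ = _ := by
        obtain ⟨v, hv⟩ : ∃ v, 2 * k = u + v := ⟨2 * k - u, by omega⟩
        have e1 : 2 * k - u = v := by omega
        have e2 : 4 * k = 2 * (u + v) := by omega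
        rw [e1, e2]
        ring

end Pool.Agent.H598.TK
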