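import Pool.Agent.H598.TK.Units
import Pool.Agent.H598.TK.Struct

/-!
# The circle method for several variables
-/

namespace Pool.Agent.H598.TK

open Finset Polynomial Pool.Agent.H598.FQ Pool.Agent.H598.DG
open scoped Classical

variable {F : Type*} [Field F]

/-- The error polynomial. -/
noncomputable def EE (k : ℕ) {s : ℕ} (a b : Fin s → F[X]) (N c0 : F[X])
    (n : Fin s → ℕ) (y : ∀ i, degreeLT F (n i)) : F[X] :=
  ∑ i, GG k (a i) (b i) N (y i) + c0

/-- The hypotheses of the circle method. -/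
structure Hyp (k : ℕ) {s : ℕ} (a b : Fin s → F[X]) (N c0 : F[X])
    (n P : Fin s → ℕ) (M Nk R : ℕ) : Prop where
  N0 : N ≠ 0
  hNk : 1 ≤ Nk
  hM : Nk + R = M
  hn : ∀ i, R ≤ n i
  hx : ∀ i, ∀ y ∈ degreeLT F (n i), (b i + N * y).natDegree ≤ P i
  hA : ∀ i, (a i).natDegree + (k - 1) * P i ≤ Nk
  hE : ∀ y : (∀ i, degreeLT F (n i)), EE k a b N c0 n y ∈ degreeLT F M

/-- Translation of a tuple by polynomials of small degree. -/
noncomputable def shiftN {s d : ℕ} {n : Fin s → ℕ} (hd : ∀ i, d ≤ n i)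
    (y : ∀ i, degreeLT F (n i)) (z : Fin s → degreeLT F d) : ∀ i, degreeLT F (n i) :=
  fun i => y i + ⟨(z i : F[X]), V_mono (hd i) (z i).2⟩

lemma shiftN_coe {s d : ℕ} {n : Fin s → ℕ} (hd : ∀ i, d ≤ n i)
    (y : ∀ i, degreeLT F (n i)) (z : Fin s → degreeLT F d) (i : Fin s) :
    ((shiftN hd y z i : degreeLT F (n i)) : F[X]) = (y i : F[X]) + (z i : F[X]) := rfl

section
variable {k s : ℕ} {a b : Fin s → F[X]} {N c0 : F[X]} {n P : Fin s → ℕ}
  {M Nk R : ℕ}

lemma Hyp.GG_mem (H : Hyp k a b N c0 n P M Nk R) {d : ℕ} (i : Fin s)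
    {y y' : F[X]} (hy : y ∈ degreeLT F (n i)) (hy' : y' ∈ degreeLT F (n i))
    (hd : y - y' ∈ degreeLT F d) :
    GG k (a i) (b i) N y - GG k (a i) (b i) N y' ∈ degreeLT F (Nk + d) := by
  have h := GG_sub_mem (k := k) (a := a i) (b := b i) H.N0 (le_refl (a i).natDegree)
    (H.hx i y hy) (H.hx i y' hy') hd
  apply V_mono _ h
  have := H.hA i
  omega

lemma Hyp.EE_shift (H : Hyp k a b N c0 n P M Nk R) {d : ℕ} (hd : ∀ i, d ≤ n i)
    (y : ∀ i, degreeLT F (n i)) (z : Fin s → degreeLT F d) :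
    EE k a b N c0 n (shiftN hd y z) - EE k a b N c0 n y ∈ degreeLT F (Nk + d) := by
  unfold EE
  have h1 : (∑ i, GG k (a i) (b i) N (shiftN hd y z i : degreeLT F (n i)) + c0)
      - (∑ i, GG k (a i) (b i) N (y i : F[X]) + c0)
      = ∑ i, (GG k (a i) (b i) N (shiftN hd y z i : degreeLT F (n i))
        - GG k (a i) (b i) N (y i : F[X])) := by
    rw [Finset.sum_sub_distrib]; ring
  rw [h1]
  apply Submodule.sum_mem
  intro i _
  apply H.GG_mem i (shiftN hd y z i).2 (y i).2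
  rw [shiftN_coe, add_sub_cancel_left]
  exact (z i).2

/-- The value of the functional at the error polynomial. -/
lemma lin_EE (H : Hyp k a b N c0 n P M Nk R) {L : F[X] →ₗ[F] F} {d : ℕ} {g : F[X]}
    (hg : g.Monic) (hd : g.natDegree = d) (hK : Kn L Nk g)
    {y : ∀ i, degreeLT F (n i)} (hy : EE k a b N c0 n y ∈ degreeLT F (Nk + d)) :
    L (EE k a b N c0 n y) = ∑ i, L ((GG k (a i) (b i) N (y i)) %ₘ g) + L (c0 %ₘ g) := by
  rw [redN H.hNk hg hd hK hy]
  unfold EE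
  have h1 : (∑ i, GG k (a i) (b i) N (y i) + c0) %ₘ g
      = ∑ i, (GG k (a i) (b i) N (y i)) %ₘ g + c0 %ₘ g := by
    have := map_add (modByMonicHom g) (∑ i, GG k (a i) (b i) N (y i)) c0
    rw [map_sum] at this
    simpa only [modByMonicHom_apply] using this
  rw [h1, map_add, map_sum]

variable [Fintype F]

/-- The tuples whose error polynomial has small degree. -/
noncomputable def Yd (k : ℕ) (a b : Fin s → F[X]) (N c0 : F[X]) (n : Fin s → ℕ)
    (r : ℕ) : Finset (∀ i, degreeLT F (n i)) :=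
  Finset.univ.filter (fun y => EE k a b N c0 n y ∈ degreeLT F r)

lemma mem_Yd {r : ℕ} {y : ∀ i, degreeLT F (n i)} :
    y ∈ Yd k a b N c0 n r ↔ EE k a b N c0 n y ∈ degreeLT F r := by
  rw [Yd, Finset.mem_filter]
  exact ⟨fun h => h.2, fun h => ⟨Finset.mem_univ _, h⟩⟩

lemma shiftN_mem (H : Hyp k a b N c0 n P M Nk R) {d : ℕ} (hd : ∀ i, d ≤ n i)
    {y : ∀ i, degreeLT F (n i)} (hy : y ∈ Yd k a b N c0 n (Nk + d))
    (z : Fin s → degreeLT F d) : shiftN hd y z ∈ Yd k a b N c0 n (Nk + d) := by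
  rw [mem_Yd] at *
  have := Submodule.add_mem _ (H.EE_shift hd y z) hy
  rwa [sub_add_cancel] at this

/-- The complete sum of the `i`-th variable. -/
noncomputable def CC (ψ : AddChar F ℂ) (L : F[X] →ₗ[F] F) (k : ℕ) (a b N g : F[X]) (d : ℕ) : ℂ :=
  ∑ v : degreeLT F d, ψ (L ((GG k a b N v) %ₘ g))

lemma sum_prod_pi {s : ℕ} {V : Type*} [Fintype V] (f : Fin s → V → ℂ) :
    ∏ i, ∑ v, f i v = ∑ x : Fin s → V, ∏ i, f i (x i) := sum_prod_eq f

omit [Fintype F] in
/-- The value of a map modulo `g` only depends on the residue class. -/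
lemma GG_mod_shift (k : ℕ) (a b : F[X]) {N : F[X]} (hN : N ≠ 0) {g : F[X]} (hg : g.Monic)
    (y z : F[X]) : (GG k a b N (y + z)) %ₘ g = (GG k a b N (y %ₘ g + z)) %ₘ g := by
  apply mod_eq_of_dvd hg
  apply GG_dvd k a b hN
  have := dvd_sub_mod g y
  have e : y + z - (y %ₘ g + z) = y - y %ₘ g := by ring
  rw [e]
  exact this

/-- Auxiliary function. -/
noncomputable def ft (ψ : AddChar F ℂ) (L : F[X] →ₗ[F] F) (k : ℕ) (a b N g y : F[X]) (d : ℕ)
    (v : degreeLT F d) : ℂ := ψ (L ((GG k a b N (y %ₘ g + (v : F[X]))) %ₘ g))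

lemma sum_ft (ψ : AddChar F ℂ) (L : F[X] →ₗ[F] F) (k : ℕ) (a b N : F[X]) {g : F[X]} {d : ℕ}
    (hg : g.Monic) (hd : g.natDegree = d) (y : F[X]) :
    ∑ v : degreeLT F d, ft ψ L k a b N g y d v = CC ψ L k a b N g d := by
  have h := Equiv.sum_comp (Equiv.addLeft (⟨y %ₘ g, mod_mem hg hd _⟩ : degreeLT F d))
      (fun z : degreeLT F d => ψ (L ((GG k a b N (z : F[X])) %ₘ g)))
  unfold CC
  rw [← h]
  rfl

lemma psi_shift {ψ : AddChar F ℂ} (H : Hyp k a b N c0 n P M Nk R) {L : F[X] →ₗ[F] F} {d : ℕ}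
    (hdn : ∀ i, d ≤ n i) {g : F[X]} (hg : g.Monic) (hd : g.natDegree = d) (hK : Kn L Nk g)
    {y : ∀ i, degreeLT F (n i)} (hy : y ∈ Yd k a b N c0 n (Nk + d))
    (z : Fin s → degreeLT F d) :
    ψ (L (EE k a b N c0 n (shiftN hdn y z)))
      = ψ (L (c0 %ₘ g)) * ∏ i, ft ψ L k (a i) (b i) N g (y i) d (z i) := by
  have h2 := mem_Yd.1 (shiftN_mem H hdn hy z)
  rw [lin_EE H hg hd hK h2, add_comm, AddChar.map_add_eq_mul, char_sum]
  have h3 : ∀ i, ψ (L ((GG k (a i) (b i) N (shiftN hdn y z i : degreeLT F (n i))) %ₘ g))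
      = ft ψ L k (a i) (b i) N g (y i) d (z i) := by
    intro i
    rw [shiftN_coe, GG_mod_shift k (a i) (b i) H.N0 hg]
    rfl
  rw [Finset.prod_congr rfl (fun i _ => h3 i)]

lemma sum_shiftN {ψ : AddChar F ℂ} (H : Hyp k a b N c0 n P M Nk R) {L : F[X] →ₗ[F] F} {d : ℕ}
    (hdn : ∀ i, d ≤ n i) {g : F[X]} (hg : g.Monic) (hd : g.natDegree = d) (hK : Kn L Nk g)
    {y : ∀ i, degreeLT F (n i)} (hy : y ∈ Yd k a b N c0 n (Nk + d)) :
    ‖∑ z : Fin s → degreeLT F d, ψ (L (EE k a b N c0 n (shiftN hdn y z)))‖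
      = ∏ i, ‖CC ψ L k (a i) (b i) N g d‖ := by
  rw [Finset.sum_congr rfl (fun z _ => psi_shift H hdn hg hd hK hy z), ← Finset.mul_sum,
    ← sum_prod_pi (fun i (v : degreeLT F d) => ft ψ L k (a i) (b i) N g (y i) d v),
    Finset.prod_congr rfl (fun i _ => sum_ft ψ L k (a i) (b i) N hg hd (y i)), norm_mul,
    AddChar.norm_apply, one_mul, norm_prod]

/-- Bound for the inner sum. -/
lemma inner_boundN {ψ : AddChar F ℂ} (H : Hyp k a b N c0 n P M Nk R) {L : F[X] →ₗ[F] F} {d : ℕ}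
    (hdn : ∀ i, d ≤ n i) {g : F[X]} (hg : g.Monic) (hd : g.natDegree = d) (hK : Kn L Nk g) :
    ‖∑ y ∈ Yd k a b N c0 n (Nk + d), ψ (L (EE k a b N c0 n y))‖
      ≤ ((Yd k a b N c0 n (Nk + d)).card : ℝ) *
        ∏ i, (‖CC ψ L k (a i) (b i) N g d‖ / (Fintype.card F : ℝ) ^ d) := by
  set Y := Yd k a b N c0 n (Nk + d) with hY
  set q : ℝ := (Fintype.card F : ℝ) with hq
  have hq0 : 0 < q := by rw [hq]; exact_mod_cast Fintype.card_pos
  have h1 : ∀ z : Fin s → degreeLT F d, ∑ y ∈ Y, ψ (L (EE k a b N c0 n y))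
      = ∑ y ∈ Y, ψ (L (EE k a b N c0 n (shiftN hdn y z))) := by
    intro z
    symm
    refine Finset.sum_bij' (fun y _ => shiftN hdn y z)
      (fun y _ => shiftN hdn y (-z)) ?_ ?_ ?_ ?_ ?_
    · intro y hy; exact shiftN_mem H hdn hy z
    · intro y hy; exact shiftN_mem H hdn hy (-z)
    · intro y _
      funext i
      apply Subtype.ext
      rw [shiftN_coe, shiftN_coe]
      simp
    · intro y _
      funext i
      apply Subtype.ext
      rw [shiftN_coe, shiftN_coe]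
      simp
    · intro y _; rfl
  have h2 : ((q ^ d) ^ (s) : ℝ) * ‖∑ y ∈ Y, ψ (L (EE k a b N c0 n y))‖
      = ‖∑ y ∈ Y, ∑ z : Fin s → degreeLT F d,
        ψ (L (EE k a b N c0 n (shiftN hdn y z)))‖ := by
    rw [Finset.sum_comm, Finset.sum_congr rfl (fun z _ => (h1 z).symm), Finset.sum_const,
      nsmul_eq_mul, norm_mul, Complex.norm_natCast, Finset.card_univ, Fintype.card_fun, card_V,
      Fintype.card_fin]
    push_cast
    rfl
  have h3 : ‖∑ y ∈ Y, ∑ z : Fin s → degreeLT F d,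
        ψ (L (EE k a b N c0 n (shiftN hdn y z)))‖
      ≤ (Y.card : ℝ) * ∏ i, ‖CC ψ L k (a i) (b i) N g d‖ := by
    refine le_trans (norm_sum_le _ _) ?_
    rw [← nsmul_eq_mul, ← Finset.sum_const]
    apply Finset.sum_le_sum
    intro y hy
    exact le_of_eq (sum_shiftN H hdn hg hd hK hy)
  have hpos : 0 < (q ^ d) ^ (s) := by positivity
  rw [Finset.prod_div_distrib, Finset.prod_const, Finset.card_univ, Fintype.card_fin,
    ← mul_div_assoc, le_div_iff₀ hpos, mul_comm, h2]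
  exact h3

/-- The condition at infinity: the `i₀`-th variable has a fixed non-zero leading coefficient and
the corresponding term is dominant. -/
structure Inf (k : ℕ) {s : ℕ} (a b : Fin s → F[X]) (N : F[X])
    (n P : Fin s → ℕ) (M : ℕ) (i₀ : Fin s) (c : F) : Prop where
  ha : a i₀ ≠ 0
  hc : c ≠ 0
  hcoeff : ∀ y ∈ degreeLT F (n i₀), (b i₀ + N * y).coeff (P i₀) = c
  hdeg : (a i₀).natDegree + (k - 1) * P i₀ + n i₀ = M

/-- Modify one coefficient of one entry. -/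
noncomputable def trN {s : ℕ} {n : Fin s → ℕ} (i₀ : Fin s) (j : ℕ) (hj : j < n i₀) (c : F)
    (y : ∀ i, degreeLT F (n i)) : ∀ i, degreeLT F (n i) :=
  Function.update y i₀ (y i₀ + ⟨C c * X ^ j, by
    rw [mem_V_iff]
    intro l hl
    rw [coeff_C_mul, coeff_X_pow, if_neg (by omega), mul_zero]⟩)

lemma trN_self {s : ℕ} {n : Fin s → ℕ} (i₀ : Fin s) (j : ℕ) (hj : j < n i₀) (c : F)
    (y : ∀ i, degreeLT F (n i)) :
    ((trN i₀ j hj c y i₀ : degreeLT F (n i₀)) : F[X]) = (y i₀ : F[X]) + C c * X ^ j := by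
  unfold trN
  rw [Function.update_self]
  rfl

lemma trN_ne {s : ℕ} {n : Fin s → ℕ} (i₀ : Fin s) (j : ℕ) (hj : j < n i₀) (c : F)
    (y : ∀ i, degreeLT F (n i)) {i : Fin s} (hi : i ≠ i₀) : trN i₀ j hj c y i = y i := by
  unfold trN
  rw [Function.update_of_ne hi]

lemma trN_trN {s : ℕ} {n : Fin s → ℕ} (i₀ : Fin s) (j : ℕ) (hj : j < n i₀) (c c' : F)
    (y : ∀ i, degreeLT F (n i)) : trN i₀ j hj c (trN i₀ j hj c' y) = trN i₀ j hj (c' + c) y := by
  funext i
  by_cases hi : i = i₀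
  · subst hi
    apply Subtype.ext
    rw [trN_self, trN_self, trN_self, C_add]
    ring
  · rw [trN_ne _ _ _ _ _ hi, trN_ne _ _ _ _ _ hi, trN_ne _ _ _ _ _ hi]

lemma trN_zero {s : ℕ} {n : Fin s → ℕ} (i₀ : Fin s) (j : ℕ) (hj : j < n i₀)
    (y : ∀ i, degreeLT F (n i)) : trN i₀ j hj 0 y = y := by
  funext i
  by_cases hi : i = i₀
  · subst hi
    apply Subtype.ext
    rw [trN_self]
    simp
  · rw [trN_ne _ _ _ _ _ hi]

lemma EE_tr (i₀ : Fin s) (j : ℕ) (hj : j < n i₀) (c : F)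
    (y : ∀ i, degreeLT F (n i)) :
    EE k a b N c0 n (trN i₀ j hj c y) - EE k a b N c0 n y
      = GG k (a i₀) (b i₀) N ((y i₀ : F[X]) + C c * X ^ j) - GG k (a i₀) (b i₀) N (y i₀) := by
  unfold EE
  rw [← Finset.add_sum_erase _ _ (Finset.mem_univ i₀),
    ← Finset.add_sum_erase _ (fun i => GG k (a i) (b i) N (y i)) (Finset.mem_univ i₀), trN_self]
  have : ∀ i ∈ (Finset.univ.erase i₀), GG k (a i) (b i) N (trN i₀ j hj c y i : degreeLT F (n i))
      = GG k (a i) (b i) N (y i) := by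
    intro i hi
    rw [trN_ne _ _ _ _ _ (Finset.ne_of_mem_erase hi)]
  rw [Finset.sum_congr rfl this]
  ring


/-- Going up one level multiplies the count by `q`. -/
lemma card_Yd_succ (H : Hyp k a b N c0 n P M Nk R) (hk : 1 ≤ k) (hkF : (k : F) ≠ 0)
    {i₀ : Fin s} {c₀ : F} (I : Inf k a b N n P M i₀ c₀) {d : ℕ} (hd : d < R) :
    (Yd k a b N c0 n (Nk + d + 1)).card = (Yd k a b N c0 n (Nk + d)).card * Fintype.card F := by
  have hM := H.hM
  have hn := H.hn i₀
  have hdeg := I.hdeg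
  set r := Nk + d with hr
  set A := (a i₀).natDegree with hA
  obtain ⟨j, hj, hjr⟩ : ∃ j, j < n i₀ ∧ j + (A + (k - 1) * P i₀) = r := by
    refine ⟨n i₀ - R + d, by omega, by omega⟩
  set u : F := (a i₀).coeff A * ((k : F) * c₀ ^ (k - 1)) with hu
  have hu0 : u ≠ 0 := by
    rw [hu]
    apply mul_ne_zero
    · rw [hA]
      exact leadingCoeff_ne_zero.2 I.ha
    · exact mul_ne_zero hkF (pow_ne_zero _ I.hc)
  have hCX : ∀ c : F, C c * X ^ j ∈ degreeLT F (n i₀) := by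
    intro c
    rw [mem_V_iff]
    intro l hl
    rw [coeff_C_mul, coeff_X_pow, if_neg (by omega), mul_zero]
  have hcoeff : ∀ (c : F) (y : ∀ i, degreeLT F (n i)),
      (EE k a b N c0 n (trN i₀ j hj c y)).coeff r = (EE k a b N c0 n y).coeff r + u * c := by
    intro c y
    have hy' : (y i₀ : F[X]) + C c * X ^ j ∈ degreeLT F (n i₀) :=
      Submodule.add_mem _ (y i₀).2 (hCX c)
    have h1 := GG_coeff (k := k) (a := a i₀) (b := b i₀) H.N0 (j := j) (le_refl A)
      (y := (y i₀ : F[X])) (c := c) (H.hx i₀ _ (y i₀).2) (H.hx i₀ _ hy')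
      (by rw [I.hcoeff _ hy', I.hcoeff _ (y i₀).2])
    rw [I.hcoeff _ (y i₀).2, hjr, ← EE_tr (a := a) (b := b) (c0 := c0) i₀ j hj c y,
      coeff_sub] at h1
    rw [hu, ← h1]; ring
  have hmem : ∀ (c : F) (y : ∀ i, degreeLT F (n i)),
      y ∈ Yd k a b N c0 n (r + 1) → trN i₀ j hj c y ∈ Yd k a b N c0 n (r + 1) := by
    intro c y hy
    rw [mem_Yd] at *
    have hy' : (y i₀ : F[X]) + C c * X ^ j ∈ degreeLT F (n i₀) :=
      Submodule.add_mem _ (y i₀).2 (hCX c)
    have h1 := GG_sub_mem (k := k) (a := a i₀) (b := b i₀) H.N0 (le_refl A)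
      (H.hx i₀ _ hy') (H.hx i₀ _ (y i₀).2) (d := j + 1) (by
        rw [add_sub_cancel_left, mem_V_succ_iff]
        exact natDegree_C_mul_X_pow_le c j)
    rw [← EE_tr (a := a) (b := b) (c0 := c0) i₀ j hj c y] at h1
    have e : j + 1 + (A + (k - 1) * P i₀) = r + 1 := by omega
    rw [e] at h1
    have := Submodule.add_mem _ h1 hy
    rwa [sub_add_cancel] at this
  let cf : (∀ i, degreeLT F (n i)) → F := fun y => (EE k a b N c0 n y).coeff r / u
  rw [← Finset.card_univ (α := F), ← Finset.card_product]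
  symm
  refine Finset.card_bij' (fun yc _ => trN i₀ j hj yc.2 yc.1)
    (fun y _ => (trN i₀ j hj (-cf y) y, cf y)) ?_ ?_ ?_ ?_
  · rintro ⟨y, c⟩ hy
    rw [Finset.mem_product] at hy
    apply hmem
    rw [mem_Yd]
    exact V_mono (Nat.le_succ _) (mem_Yd.1 hy.1)
  · intro y hy
    rw [Finset.mem_product]
    refine ⟨?_, Finset.mem_univ _⟩
    have h1 := hmem (-cf y) y hy
    rw [mem_Yd] at h1 ⊢
    apply mem_V_of_succ h1
    rw [hcoeff]
    simp only [cf]
    field_simp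
    ring
  · rintro ⟨y, c⟩ hy
    rw [Finset.mem_product] at hy
    have hy1 := mem_Yd.1 hy.1
    have h3 : cf (trN i₀ j hj c y) = c := by
      simp only [cf]
      rw [hcoeff, mem_V_iff.1 hy1 r le_rfl, zero_add, mul_comm, mul_div_assoc, div_self hu0,
        mul_one]
    simp only
    rw [h3, trN_trN]
    simp [trN_zero]
  · intro y _
    simp only
    rw [trN_trN]
    simp [trN_zero]

/-- The number of all tuples. -/
noncomputable def QQ (F : Type*) [Field F] [Fintype F] {s : ℕ} (n : Fin s → ℕ) : ℕ :=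
  ∏ i, Fintype.card F ^ n i

lemma card_all {s : ℕ} (n : Fin s → ℕ) :
    Fintype.card (∀ i, degreeLT F (n i)) = QQ F n := by
  rw [Fintype.card_pi]
  unfold QQ
  apply Finset.prod_congr rfl
  intro i _
  exact card_V (n i)

/-- The exact count at every level. -/
lemma card_Yd (H : Hyp k a b N c0 n P M Nk R) (hk : 1 ≤ k) (hkF : (k : F) ≠ 0)
    {i₀ : Fin s} {c₀ : F} (I : Inf k a b N n P M i₀ c₀) :
    ∀ e d : ℕ, d + e = R → (Yd k a b N c0 n (Nk + d)).card * Fintype.card F ^ e = QQ F n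
  | 0, d, h => by
      have h1 : Yd k a b N c0 n (Nk + d) = Finset.univ := by
        ext y
        rw [mem_Yd]
        constructor
        · intro _; exact Finset.mem_univ _
        · intro _
          have e1 : Nk + d = M := by have := H.hM; omega
          rw [e1]
          exact H.hE y
      rw [h1, Finset.card_univ, card_all, pow_zero, mul_one]
  | (e + 1), d, h => by
      have h1 := card_Yd H hk hkF I e (d + 1) (by omega)
      have h2 := card_Yd_succ H hk hkF I (d := d) (by omega)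
      have e1 : Nk + (d + 1) = Nk + d + 1 := by ring
      rw [e1, h2] at h1
      rw [← h1, pow_succ]
      ring

end

end Pool.Agent.H598.TK
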