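import Pool.Agent.H598.TK.Num
import Pool.Agent.H598.TK.Top

/-!
# Sums of `2k + 2u` `k`-th powers
-/

namespace Pool.Agent.H598.TK

open Finset Polynomial Pool.Agent.H598.FQ
open Pool.Agent.H598.DG (Kn ism mis DN MN mem_DN mem_MN sum_splitN sum_DN_zero sum_all GG GG_mul
  GG_sub_mem sg sg_ne mean_gen count_GG amgm geo16)
open scoped Classical

variable {F : Type*} [Field F]

/-- The fixed leading terms. -/
noncomputable def bb {s : ℕ} (c : Fin s → F) (P : ℕ) (i : Fin s) : F[X] := C (c i) * X ^ P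

/-- The constant term. -/
noncomputable def cc {s : ℕ} (k : ℕ) (c : Fin s → F) (P : ℕ) (m : F[X]) : F[X] :=
  ∑ i, bb c P i ^ k - m

/-- The error polynomial. -/
noncomputable def EP {s : ℕ} (k : ℕ) (c : Fin s → F) (P : ℕ) (m : F[X])
    (y : ∀ _ : Fin s, degreeLT F P) : F[X] :=
  EE k (fun _ => (1 : F[X])) (bb c P) 1 (cc k c P m) (fun _ => P) y

lemma EP_eq {s : ℕ} (k : ℕ) (c : Fin s → F) (P : ℕ) (m : F[X])
    (y : ∀ _ : Fin s, degreeLT F P) :
    EP k c P m y = ∑ i, (bb c P i + (y i : F[X])) ^ k - m := by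
  unfold EP EE cc
  have h1 : ∀ i, GG k 1 (bb c P i) 1 (y i : F[X]) = (bb c P i + (y i : F[X])) ^ k - bb c P i ^ k
      := by
    intro i
    have := GG_mul k (1 : F[X]) (bb c P i) 1 (y i : F[X])
    rw [one_mul, one_mul, one_mul] at this
    exact this
  rw [Finset.sum_congr rfl (fun i _ => h1 i), Finset.sum_sub_distrib]
  ring

lemma natDegree_bb {s : ℕ} (c : Fin s → F) (P : ℕ) (i : Fin s) {y : F[X]}
    (hy : y ∈ degreeLT F P) : (bb c P i + y).natDegree ≤ P := by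
  apply natDegree_add_le_of_degree_le
  · exact natDegree_C_mul_X_pow_le _ _
  · have : y ∈ degreeLT F (P + 1) := V_mono (Nat.le_succ _) hy
    exact mem_V_succ_iff.1 this

lemma coeff_bb {s : ℕ} (c : Fin s → F) (P : ℕ) (i : Fin s) {y : F[X]}
    (hy : y ∈ degreeLT F P) : (bb c P i + y).coeff P = c i := by
  unfold bb
  rw [coeff_add, coeff_C_mul_X_pow, if_pos rfl, mem_V_iff.1 hy P le_rfl, add_zero]

lemma EP_mem {s k P : ℕ} {c : Fin s → F} {m : F[X]} (hm : m ∈ degreeLT F (k * P + 1))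
    (hc : ∑ i, c i ^ k = m.coeff (k * P)) (y : ∀ _ : Fin s, degreeLT F P) :
    EP k c P m y ∈ degreeLT F (k * P) := by
  rw [EP_eq]
  apply mem_V_of_succ
  · apply Submodule.sub_mem _ _ hm
    apply Submodule.sum_mem
    intro i _
    rw [mem_V_succ_iff]
    exact le_trans natDegree_pow_le (Nat.mul_le_mul_left _ (natDegree_bb c P i (y i).2))
  · rw [coeff_sub, finsetSum_coeff, ← hc, sub_eq_zero]
    apply Finset.sum_congr rfl
    intro i _
    rw [coeff_pow_of_natDegree_le (natDegree_bb c P i (y i).2), coeff_bb c P i (y i).2]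

lemma hyp_of {s k P : ℕ} (hk : 2 ≤ k) (hP : 1 ≤ P) {c : Fin s → F} {m : F[X]}
    (hm : m ∈ degreeLT F (k * P + 1)) (hc : ∑ i, c i ^ k = m.coeff (k * P)) :
    Hyp k (fun _ => (1 : F[X])) (bb c P) 1 (cc k c P m) (fun _ => P) (fun _ => P) (k * P)
      ((k - 1) * P) P := by
  have hkk : (k - 1) * P + P = k * P := by
    obtain ⟨k', rfl⟩ : ∃ k', k = k' + 1 := ⟨k - 1, by omega⟩
    simp only [Nat.add_sub_cancel]; ring
  refine ⟨one_ne_zero, ?_, hkk, fun _ => le_rfl, ?_, ?_, fun y => EP_mem hm hc y⟩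
  · exact Nat.mul_pos (by omega) (by omega)
  · intro i y hy
    rw [one_mul]
    exact natDegree_bb c P i hy
  · intro i
    rw [natDegree_one, zero_add]

lemma inf_of {s k P : ℕ} (hk : 2 ≤ k) {c : Fin s → F} {i₀ : Fin s} (hi₀ : c i₀ ≠ 0) :
    Inf k (fun _ => (1 : F[X])) (bb c P) 1 (fun _ => P) (fun _ => P) (k * P) i₀ (c i₀) := by
  have hkk : (k - 1) * P + P = k * P := by
    obtain ⟨k', rfl⟩ : ∃ k', k = k' + 1 := ⟨k - 1, by omega⟩
    simp only [Nat.add_sub_cancel]; ring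
  refine ⟨one_ne_zero, hi₀, ?_, ?_⟩
  · intro y hy
    rw [one_mul]
    exact coeff_bb c P i₀ hy
  · rw [natDegree_one, zero_add]
    exact hkk

section
variable [Fintype F]

/-- The number of zeros. -/
noncomputable def ZZ {s : ℕ} (k : ℕ) (c : Fin s → F) (P : ℕ) (m : F[X]) : ℕ :=
  (Finset.univ.filter (fun y : (∀ _ : Fin s, degreeLT F P) => EP k c P m y = 0)).card

/-- The contribution of the minor functionals. -/
noncomputable def SM {s : ℕ} (ψ : AddChar F ℂ) (k : ℕ) (c : Fin s → F) (P : ℕ) (m : F[X]) : ℂ :=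
  ∑ α ∈ MN F (k * P) ((k - 1) * P) P, ∑ y, ψ (lin α (EP k c P m y))

/-- The analysis for a fixed polynomial. -/
lemma per_m {ψ : AddChar F ℂ} (hψ : ψ ≠ 1) {k u s : ℕ} (hk : 2 ≤ k) (hs : s = 2 * k + u)
    (hch : ∀ a, a ≤ k → ((k.choose a : ℕ) : F) ≠ 0)
    (hnum : ∀ d, 1 ≤ d →
      (k ^ d * (2 * k) ^ (k * (d - 1) + 1)) ^ u * ((2 * k) ^ (k * d + 1) * 16 ^ d) ^ (2 * k)
        ≤ ((Fintype.card F - 1) ^ d) ^ u) {P : ℕ} (hP : 1 ≤ P) {c : Fin s → F}
    {i₀ : Fin s} (hi₀ : c i₀ ≠ 0) {m : F[X]} (hm : m ∈ degreeLT F (k * P + 1))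
    (hc : ∑ i, c i ^ k = m.coeff (k * P)) :
    ‖((((Fintype.card F : ℝ) ^ P) ^ s : ℝ) : ℂ)
      - (((Fintype.card F : ℝ) ^ (k * P) * (ZZ k c P m : ℝ) : ℝ) : ℂ) + SM ψ k c P m‖
      ≤ ((Fintype.card F : ℝ) ^ P) ^ s / 15 := by
  have hkF : (k : F) ≠ 0 := by
    have := hch 1 (by omega)
    rwa [Nat.choose_one_right] at this
  have hq2 : 2 ≤ Fintype.card F := Fintype.one_lt_card
  have H := hyp_of hk hP hm hc
  have I := inf_of (P := P) hk hi₀
  have h1 := sum_all hψ (EP k c P m) H.hE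
  rw [sum_splitN (k * P) ((k - 1) * P) P, Finset.sum_range_succ',
    sum_DN_zero hψ (EP k c P m) H.hE] at h1
  set q : ℝ := (Fintype.card F : ℝ) with hq
  have hq0 : 0 < q := by rw [hq]; exact_mod_cast Fintype.card_pos
  set S1 := ∑ d ∈ Finset.range P, ∑ α ∈ DN F (k * P) ((k - 1) * P) (d + 1),
    ∑ y, ψ (lin α (EP k c P m y)) with hS1
  have hQQ : (QQ F (fun _ : Fin s => P) : ℝ) = (q ^ P) ^ s := by
    unfold QQ
    rw [Finset.prod_const, Finset.card_univ, Fintype.card_fin]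
    push_cast
    rfl
  have h3 : ‖S1‖ ≤ (q ^ P) ^ s / 15 := by
    refine le_trans (norm_sum_le _ _) ?_
    have h4 : ∀ d ∈ Finset.range P,
        ‖∑ α ∈ DN F (k * P) ((k - 1) * P) (d + 1), ∑ y, ψ (lin α (EP k c P m y))‖
        ≤ (q ^ P) ^ s * (1 / 16 ^ (d + 1)) := by
      intro d hd
      have hd' := Finset.mem_range.1 hd
      refine le_trans (level_bound1 hψ hk hch hs H (by omega) (by omega) (hnum (d + 1) (by omega))
        hq2) (le_of_eq ?_)
      have h5 := card_Yd H (by omega) hkF I (P - (d + 1)) (d + 1) (by omega)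
      have h6 : (q ^ P) ^ s = ((Yd k (fun _ => (1 : F[X])) (bb c P) 1 (cc k c P m) (fun _ => P)
          ((k - 1) * P + (d + 1))).card : ℝ) * q ^ (P - (d + 1)) := by
        rw [← hQQ, ← h5]
        push_cast
        rfl
      rw [h6, mul_div_assoc, mul_assoc]
      congr 1
      rw [hq]
      ring
    refine le_trans (Finset.sum_le_sum h4) ?_
    rw [← Finset.mul_sum]
    calc (q ^ P) ^ s * ∑ d ∈ Finset.range P, (1 : ℝ) / 16 ^ (d + 1)
        ≤ (q ^ P) ^ s * (1 / 15) := mul_le_mul_of_nonneg_left (geo16 P) (by positivity)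
      _ = _ := by ring
  have h0 : (q ^ (k * P - (k - 1) * P) * ((Finset.univ.filter
      (fun y => EP k c P m y ∈ degreeLT F ((k - 1) * P))).card : ℝ)) = (q ^ P) ^ s := by
    have h5 := card_Yd H (by omega) hkF I P 0 (by omega)
    have e1 : k * P - (k - 1) * P = P := by have := H.hM; omega
    rw [e1, ← hQQ, ← h5]
    unfold Yd EP
    push_cast
    rw [mul_comm]
    rfl
  have h7 : ((((q ^ P) ^ s : ℝ) : ℂ) - ((q ^ (k * P) * (ZZ k c P m : ℝ) : ℝ) : ℂ)
      + SM ψ k c P m) = -S1 := by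
    have h1' : ((q ^ (k * P) * (ZZ k c P m : ℝ) : ℝ) : ℂ)
        = S1 + ((q ^ (k * P - (k - 1) * P) * ((Finset.univ.filter
          (fun y => EP k c P m y ∈ degreeLT F ((k - 1) * P))).card : ℝ) : ℝ) : ℂ)
          + SM ψ k c P m := by
      rw [hq]
      unfold ZZ SM
      push_cast
      exact h1.symm
    rw [h1', h0]
    ring
  rw [h7, norm_neg]
  exact h3

/-- The exponential sum of one full variable. -/
noncomputable def S0 {s : ℕ} (ψ : AddChar F ℂ) (L : F[X] →ₗ[F] F) (k : ℕ) (c : Fin s → F) (P : ℕ)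
    (i : Fin s) : ℂ :=
  ∑ y : degreeLT F P, ψ (L ((bb c P i + (y : F[X])) ^ k))

lemma S0_eq {s : ℕ} (ψ : AddChar F ℂ) (L : F[X] →ₗ[F] F) (k : ℕ) (c : Fin s → F) (P : ℕ)
    (i : Fin s) :
    ‖S0 ψ L k c P i‖ = ‖∑ y : degreeLT F P, ψ (L (GG k 1 (bb c P i) 1 (y : F[X])))‖ := by
  have h1 : ∀ y : degreeLT F P, ψ (L ((bb c P i + (y : F[X])) ^ k))
      = ψ (L (bb c P i ^ k)) * ψ (L (GG k 1 (bb c P i) 1 (y : F[X]))) := by
    intro y
    rw [← AddChar.map_add_eq_mul, ← map_add]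
    congr 2
    have := GG_mul k (1 : F[X]) (bb c P i) 1 (y : F[X])
    rw [one_mul, one_mul, one_mul] at this
    rw [this]; ring
  unfold S0
  rw [Finset.sum_congr rfl (fun y _ => h1 y), ← Finset.mul_sum, norm_mul, AddChar.norm_apply,
    one_mul]

/-- The mean value of the full variables. -/
lemma S0_mean {ψ : AddChar F ℂ} (hψ : ψ ≠ 1) {k s : ℕ} (hk : 2 ≤ k)
    (hch : ∀ a, a ≤ k → ((k.choose a : ℕ) : F) ≠ 0) {P : ℕ} (c : Fin s → F)
    (i : Fin s) :
    ∑ α : Fin (k * P) → F, (‖S0 ψ (lin α) k c P i‖ / (Fintype.card F : ℝ) ^ P) ^ (2 * k)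
      ≤ (2 * k : ℝ) ^ (k * P + 1) * (Fintype.card F : ℝ) ^ (2 * k - 1) := by
  set q : ℝ := (Fintype.card F : ℝ) with hq
  have hq0 : 0 < q := by rw [hq]; exact_mod_cast Fintype.card_pos
  have hkk : (k - 1) * P + P = k * P := by
    obtain ⟨k', rfl⟩ : ∃ k', k = k' + 1 := ⟨k - 1, by omega⟩
    simp only [Nat.add_sub_cancel]; ring
  have hGG : ∀ y : degreeLT F P, GG k 1 (bb c P i) 1 (y : F[X]) ∈ degreeLT F (k * P) := by
    intro y
    have h0 : (0 : F[X]) ∈ degreeLT F P := Submodule.zero_mem _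
    have h1 := GG_sub_mem (k := k) (a := (1 : F[X])) (b := bb c P i) (N := 1) one_ne_zero
      (A := 0) (P := P) (natDegree_one.le) (y := (y : F[X])) (y' := 0)
      (by rw [one_mul]; exact natDegree_bb c P i y.2)
      (by rw [one_mul]; exact natDegree_bb c P i h0) (d := P) (by rw [sub_zero]; exact y.2)
    have h2 : GG k 1 (bb c P i) 1 0 = 0 := by unfold GG; ring
    rw [h2, sub_zero] at h1
    exact V_mono (by omega) h1
  have h1 := mean_gen hψ (k := k) (M := k * P) (W := degreeLT F P)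
    (fun y => GG k 1 (bb c P i) 1 (y : F[X])) hGG
  have h2 := count_GG (show 0 < k by omega) hch (one_ne_zero (α := F[X])) (one_ne_zero (α := F[X]))
    (b := bb c P i) (n := P) (P := P) (fun y hy => by rw [one_mul]; exact natDegree_bb c P i hy)
  have h3 : ∑ α : Fin (k * P) → F, (‖S0 ψ (lin α) k c P i‖ / q ^ P) ^ (2 * k)
      = (∑ α : Fin (k * P) → F,
        ‖∑ y : degreeLT F P, ψ (lin α (GG k 1 (bb c P i) 1 (y : F[X])))‖ ^ (2 * k))
        / (q ^ P) ^ (2 * k) := by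
    rw [Finset.sum_div]
    apply Finset.sum_congr rfl
    intro α _
    rw [div_pow, S0_eq]
  rw [h3, div_le_iff₀ (by positivity), h1]
  have h6 : q ^ (k * P + 1) * (JB F k P : ℝ) = (2 * k : ℝ) ^ (k * P + 1) * q ^ (2 * k * (P + 1))
    := (JB_mul (F := F) k P).resolve_right (by omega)
  have h7 : ((Nat.card {x : Fin (2 * k) → degreeLT F P //
      ∑ j, C (sg F k j) * GG k 1 (bb c P i) 1 (x j : F[X]) = 0} : ℕ) : ℝ) ≤ (JB F k P : ℝ) := by
    exact_mod_cast h2
  apply le_of_mul_le_mul_left _ hq0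
  calc q * (q ^ (k * P) * ((Nat.card {x : Fin (2 * k) → degreeLT F P //
      ∑ j, C (sg F k j) * GG k 1 (bb c P i) 1 (x j : F[X]) = 0} : ℕ) : ℝ))
      ≤ q * (q ^ (k * P) * (JB F k P : ℝ)) := by
        apply mul_le_mul_of_nonneg_left _ hq0.le
        exact mul_le_mul_of_nonneg_left h7 (by positivity)
    _ = q ^ (k * P + 1) * (JB F k P : ℝ) := by rw [pow_succ]; ring
    _ = (2 * k : ℝ) ^ (k * P + 1) * q ^ (2 * k * (P + 1)) := h6
    _ = q * ((2 * k : ℝ) ^ (k * P + 1) * q ^ (2 * k - 1) * (q ^ P) ^ (2 * k)) := by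
        have e : q ^ (2 * k * (P + 1)) = q * (q ^ (2 * k - 1) * (q ^ P) ^ (2 * k)) := by
          rw [← pow_mul, ← pow_add, ← pow_succ']
          congr 1
          have : 2 * k - 1 + 1 = 2 * k := by omega
          have e3 : 2 * k - 1 + P * (2 * k) + 1 = (2 * k - 1 + 1) + P * (2 * k) := by ring
          rw [e3, this]; ring
        rw [e]; ring

/-- The product of the full variables over all functionals. -/
lemma prod_mean {ψ : AddChar F ℂ} (hψ : ψ ≠ 1) {k u s : ℕ} (hk : 2 ≤ k) (hs : s = 2 * k + u)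
    (hch : ∀ a, a ≤ k → ((k.choose a : ℕ) : F) ≠ 0) {P : ℕ} (c : Fin s → F)
    (A : Finset (Fin (k * P) → F)) :
    ∑ α ∈ A, ∏ i, ‖S0 ψ (lin α) k c P i‖
      ≤ ((Fintype.card F : ℝ) ^ P) ^ s *
        ((2 * k : ℝ) ^ (k * P + 1) * (Fintype.card F : ℝ) ^ (2 * k - 1)) := by
  set q : ℝ := (Fintype.card F : ℝ) with hq
  have hq0 : 0 < q := by rw [hq]; exact_mod_cast Fintype.card_pos
  have hspos : 0 < s := by omega
  have hs0 : (0 : ℝ) < s := by exact_mod_cast hspos
  have hle1 : ∀ (α : Fin (k * P) → F) (i : Fin s), ‖S0 ψ (lin α) k c P i‖ / q ^ P ≤ 1 := by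
    intro α i
    rw [div_le_one (by positivity)]
    unfold S0
    refine le_trans (norm_sum_le _ _) ?_
    rw [Finset.sum_congr rfl (fun y _ => AddChar.norm_apply ψ _), Finset.sum_const,
      Finset.card_univ, card_V, nsmul_eq_mul, mul_one]
    push_cast
    rfl
  have h1 : ∀ α ∈ A, ∏ i, ‖S0 ψ (lin α) k c P i‖
      ≤ (q ^ P) ^ s * ((∑ i, (‖S0 ψ (lin α) k c P i‖ / q ^ P) ^ (2 * k)) / s) := by
    intro α _
    have h2 : ∏ i, ‖S0 ψ (lin α) k c P i‖
        = (q ^ P) ^ s * ∏ i, (‖S0 ψ (lin α) k c P i‖ / q ^ P) := by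
      have : (q ^ P) ^ s = ∏ _i : Fin s, q ^ P := by
        rw [Finset.prod_const, Finset.card_univ, Fintype.card_fin]
      rw [this, ← Finset.prod_mul_distrib]
      apply Finset.prod_congr rfl
      intro i _
      rw [mul_div_cancel₀]
      positivity
    rw [h2]
    apply mul_le_mul_of_nonneg_left _ (by positivity)
    refine le_trans (amgm hspos _ (fun i => by positivity)) ?_
    apply div_le_div_of_nonneg_right _ hs0.le
    apply Finset.sum_le_sum
    intro i _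
    exact pow_le_pow_of_le_one (by positivity) (hle1 α i) (by omega)
  refine le_trans (Finset.sum_le_sum h1) ?_
  rw [← Finset.mul_sum, ← Finset.sum_div, Finset.sum_comm]
  apply mul_le_mul_of_nonneg_left _ (by positivity)
  rw [div_le_iff₀ hs0]
  have h3 : ∀ i : Fin s, ∑ α ∈ A, (‖S0 ψ (lin α) k c P i‖ / q ^ P) ^ (2 * k)
      ≤ (2 * k : ℝ) ^ (k * P + 1) * q ^ (2 * k - 1) := by
    intro i
    refine le_trans ?_ (S0_mean hψ hk hch c i)
    exact Finset.sum_le_sum_of_subset_of_nonneg (Finset.subset_univ _)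
      (fun _ _ _ => by positivity)
  refine le_trans (Finset.sum_le_sum (fun i _ => h3 i)) ?_
  rw [Finset.sum_const, Finset.card_univ, Fintype.card_fin, nsmul_eq_mul, mul_comm]

/-- The polynomial that remains after the structured variables are fixed. -/
noncomputable def mo {R n u : ℕ} (k : ℕ) (m : F[X]) (r : degreeLT F R)
    (z : Fin u → degreeLT F n) : F[X] := m - ∑ j, (wp r * (z j : F[X])) ^ k

omit [Fintype F] in
lemma st_mem {R n P k : ℕ} (hn : 1 ≤ n) (hP : R + n = P) (hk : 1 ≤ k) (r : degreeLT F R)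
    (z : degreeLT F n) : (wp r * (z : F[X])) ^ k ∈ degreeLT F (k * P) := by
  have h1 : (wp r * (z : F[X])).natDegree ≤ P - 1 := by
    refine le_trans natDegree_mul_le ?_
    rw [wp_natDegree]
    obtain ⟨n', rfl⟩ : ∃ n', n = n' + 1 := ⟨n - 1, by omega⟩
    have := mem_V_succ_iff.1 z.2
    omega
  have h2 : ((wp r * (z : F[X])) ^ k).natDegree ≤ k * (P - 1) :=
    le_trans natDegree_pow_le (Nat.mul_le_mul_left _ h1)
  have h3 : k * (P - 1) < k * P := Nat.mul_lt_mul_of_pos_left (by omega) (by omega)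
  obtain ⟨e, he⟩ : ∃ e, k * P = e + 1 := ⟨k * P - 1, by omega⟩
  rw [he, mem_V_succ_iff]
  omega

/-- The minor functionals, summed over the structured variables. -/
lemma sum_SM {ψ : AddChar F ℂ} {k s u R n P : ℕ} (c : Fin s → F) (m : F[X]) :
    ∑ r ∈ Wr F R, ∑ z : Fin u → degreeLT F n, SM ψ k c P (mo k m r z)
      = ∑ α ∈ MN F (k * P) ((k - 1) * P) P,
        ψ (-(lin α m)) * ((∏ i, S0 ψ (lin α) k c P i) * FF ψ (lin α) k R n u) := by
  unfold SM
  have h1 : ∀ (α : Fin (k * P) → F) (r : degreeLT F R) (z : Fin u → degreeLT F n),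
      ∑ y, ψ (lin α (EP k c P (mo k m r z) y))
      = ψ (-(lin α m)) * ((∏ i, S0 ψ (lin α) k c P i)
        * ∏ j, ψ (lin α ((wp r * (z j : F[X])) ^ k))) := by
    intro α r z
    unfold S0
    rw [DG.sum_prod_dep (n := fun _ : Fin s => P)
      (fun i (y : degreeLT F P) => ψ (lin α ((bb c P i + (y : F[X])) ^ k))),
      Finset.sum_mul, Finset.mul_sum]
    apply Finset.sum_congr rfl
    intro y _
    have e1 : ∏ i, ψ (lin α ((bb c P i + (y i : F[X])) ^ k))
        = ψ (lin α (∑ i, (bb c P i + (y i : F[X])) ^ k)) := by rw [map_sum, char_sum]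
    have e2 : ∏ j, ψ (lin α ((wp r * (z j : F[X])) ^ k))
        = ψ (lin α (∑ j, (wp r * (z j : F[X])) ^ k)) := by rw [map_sum, char_sum]
    rw [e1, e2, EP_eq, ← AddChar.map_add_eq_mul, ← AddChar.map_add_eq_mul, ← map_neg,
      ← map_add, ← map_add]
    unfold mo
    congr 2
    ring
  have h2 : ∀ r ∈ Wr F R, ∑ z : Fin u → degreeLT F n,
      ∑ α ∈ MN F (k * P) ((k - 1) * P) P, ∑ y, ψ (lin α (EP k c P (mo k m r z) y))
      = ∑ α ∈ MN F (k * P) ((k - 1) * P) P,
        ψ (-(lin α m)) * ((∏ i, S0 ψ (lin α) k c P i) * (fw ψ (lin α) k n (wp r)) ^ u) := by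
    intro r _
    rw [Finset.sum_comm]
    apply Finset.sum_congr rfl
    intro α _
    rw [Finset.sum_congr rfl (fun z _ => h1 α r z), ← Finset.mul_sum, ← Finset.mul_sum]
    congr 2
    have h3 := sum_prod_eq (fun (_ : Fin u) (y : degreeLT F n) =>
      ψ (lin α ((wp r * (y : F[X])) ^ k)))
    rw [Finset.prod_const, Finset.card_univ, Fintype.card_fin] at h3
    unfold fw
    exact h3.symm
  rw [Finset.sum_congr rfl h2, Finset.sum_comm]
  apply Finset.sum_congr rfl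
  intro α _
  unfold FF
  rw [← Finset.mul_sum, ← Finset.mul_sum]

end

end Pool.Agent.H598.TK
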