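import Pool.Agent.H598.TK.Eng

/-!
# The contribution of the levels
-/

namespace Pool.Agent.H598.TK

open Finset Polynomial Pool.Agent.H598.FQ Pool.Agent.H598.DG
open scoped Classical

/-- The numerical condition for the levels. -/
lemma lev_num {q k u : ℕ} (hk : 2 ≤ k) (huk : u ≤ k) (hq : (2 * k) ^ (12 * k ^ 2) ≤ q ^ u)
    (hu : 1 ≤ u) : 8 * k ^ 4 ≤ q ∧ ∀ d, 1 ≤ d →
      (k ^ d * (2 * k) ^ (k * (d - 1) + 1)) ^ u * ((2 * k) ^ (k * d + 1) * 16 ^ d) ^ (2 * k)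
        ≤ ((q - 1) ^ d) ^ u := by
  have hq1 : (2 * k) ^ (12 * k) ≤ q := by
    by_contra hlt
    push Not at hlt
    have h1 : q ^ u < ((2 * k) ^ (12 * k)) ^ u := Nat.pow_lt_pow_left hlt (by omega)
    have h2 : ((2 * k) ^ (12 * k)) ^ u ≤ (2 * k) ^ (12 * k ^ 2) := by
      rw [← pow_mul]
      apply Nat.pow_le_pow_right (by omega)
      nlinarith
    omega
  have h8 : 8 * k ^ 4 ≤ q := by
    refine le_trans ?_ hq1
    calc 8 * k ^ 4 ≤ (2 * k) ^ 4 := by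
          rw [mul_pow]
          have : 0 < k ^ 4 := by positivity
          omega
      _ ≤ (2 * k) ^ (12 * k) := Nat.pow_le_pow_right (by omega) (by omega)
  refine ⟨h8, fun d hd => ?_⟩
  have hq2 : 2 ≤ q := by
    have : 0 < k ^ 4 := by positivity
    omega
  -- lower bound for (q-1)^u
  have h3 : (2 * k) ^ (11 * k ^ 2) ≤ (q - 1) ^ u := by
    have h4 : q ^ u ≤ (2 * k) ^ k * (q - 1) ^ u := by
      calc q ^ u ≤ (2 * (q - 1)) ^ u := Nat.pow_le_pow_left (by omega) u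
        _ = 2 ^ u * (q - 1) ^ u := mul_pow _ _ _
        _ ≤ (2 * k) ^ k * (q - 1) ^ u := by
            apply Nat.mul_le_mul_right
            calc 2 ^ u ≤ 2 ^ k := Nat.pow_le_pow_right (by norm_num) huk
              _ ≤ (2 * k) ^ k := Nat.pow_le_pow_left (by omega) k
    have h5 : (2 * k) ^ k * (2 * k) ^ (11 * k ^ 2) ≤ (2 * k) ^ k * (q - 1) ^ u := by
      refine le_trans ?_ (le_trans hq h4)
      rw [← pow_add]
      apply Nat.pow_le_pow_right (by omega)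
      nlinarith
    exact Nat.le_of_mul_le_mul_left h5 (by positivity)
  have h6 : k ^ d * (2 * k) ^ (k * (d - 1) + 1) ≤ (2 * k) ^ ((k + 1) * d) := by
    calc k ^ d * (2 * k) ^ (k * (d - 1) + 1) ≤ (2 * k) ^ d * (2 * k) ^ (k * (d - 1) + 1) :=
          Nat.mul_le_mul_right _ (Nat.pow_le_pow_left (by omega) d)
      _ = (2 * k) ^ (d + (k * (d - 1) + 1)) := by rw [← pow_add]
      _ ≤ (2 * k) ^ ((k + 1) * d) := by
          apply Nat.pow_le_pow_right (by omega)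
          obtain ⟨e, rfl⟩ : ∃ e, d = e + 1 := ⟨d - 1, by omega⟩
          simp only [Nat.add_sub_cancel]
          nlinarith
  have h7 : (2 * k) ^ (k * d + 1) * 16 ^ d ≤ (2 * k) ^ ((k + 3) * d) := by
    calc (2 * k) ^ (k * d + 1) * 16 ^ d ≤ (2 * k) ^ (k * d + 1) * ((2 * k) ^ 2) ^ d := by
          apply Nat.mul_le_mul_left
          apply Nat.pow_le_pow_left
          nlinarith
      _ = (2 * k) ^ (k * d + 1 + 2 * d) := by rw [← pow_mul, ← pow_add]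
      _ ≤ (2 * k) ^ ((k + 3) * d) := Nat.pow_le_pow_right (by omega) (by nlinarith)
  calc (k ^ d * (2 * k) ^ (k * (d - 1) + 1)) ^ u * ((2 * k) ^ (k * d + 1) * 16 ^ d) ^ (2 * k)
      ≤ ((2 * k) ^ ((k + 1) * d)) ^ u * ((2 * k) ^ ((k + 3) * d)) ^ (2 * k) :=
        Nat.mul_le_mul (Nat.pow_le_pow_left h6 u) (Nat.pow_le_pow_left h7 _)
    _ = (2 * k) ^ ((k + 1) * d * u + (k + 3) * d * (2 * k)) := by
        rw [← pow_mul, ← pow_mul, ← pow_add]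
    _ ≤ (2 * k) ^ (11 * k ^ 2 * d) := by
        apply Nat.pow_le_pow_right (by omega)
        have h9 : (k + 1) * d * u ≤ (k + 1) * d * k := Nat.mul_le_mul_left _ huk
        nlinarith [Nat.mul_le_mul_left (k * d) hk]
    _ = ((2 * k) ^ (11 * k ^ 2)) ^ d := by rw [← pow_mul]
    _ ≤ ((q - 1) ^ u) ^ d := Nat.pow_le_pow_left h3 d
    _ = ((q - 1) ^ d) ^ u := by rw [← pow_mul, ← pow_mul, mul_comm]

variable {F : Type*} [Field F] [Fintype F]

/-- The normalised complete sum. -/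
noncomputable def cn (ψ : AddChar F ℂ) (k Nk d : ℕ) (L : F[X] →ₗ[F] F) : ℝ :=
  ‖Cs ψ (La L Nk d 1 1) k d‖ / (Fintype.card F : ℝ) ^ d

lemma cn_nonneg (ψ : AddChar F ℂ) (k Nk d : ℕ) (L : F[X] →ₗ[F] F) : 0 ≤ cn ψ k Nk d L := by
  unfold cn; positivity

lemma CC_eq (ψ : AddChar F ℂ) {k Nk d : ℕ} {L : F[X] →ₗ[F] F} (hL : ism L Nk d) (b : F[X]) :
    ‖CC ψ L k 1 b 1 (gk L Nk d) d‖ / (Fintype.card F : ℝ) ^ d = cn ψ k Nk d L := by
  obtain ⟨hg, hgd, hK⟩ := gk_spec hL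
  unfold cn
  congr 1
  have h1 := comp_coprime ψ L hg hgd k 1 b (nu_spec (N := 1) isCoprime_one_left)
  exact h1

lemma cn_sup {ψ : AddChar F ℂ} (hψ : ψ ≠ 1) {k : ℕ} (hk : 2 ≤ k)
    (hch : ∀ a, a ≤ k → ((k.choose a : ℕ) : F) ≠ 0) {u : ℕ} {d Nk : ℕ} (hd : 1 ≤ d)
    (hNk : 1 ≤ Nk) {L : F[X] →ₗ[F] F} (hL : ism L Nk d)
    (hnum : (k ^ d * (2 * k) ^ (k * (d - 1) + 1)) ^ u * ((2 * k) ^ (k * d + 1) * 16 ^ d) ^ (2 * k)
        ≤ ((Fintype.card F - 1) ^ d) ^ u) (hq : 2 ≤ Fintype.card F) :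
    cn ψ k Nk d L ^ u * ((2 * k : ℝ) ^ (k * d + 1) * 16 ^ d) ≤ 1 := by
  obtain ⟨hg, hgd, hK⟩ := gk_spec hL
  have h1 := sup_units hψ hk hch hd hNk hg hgd hK hL.2
    (h := 1 * nu 1 (gk L Nk d)) (IsCoprime.mul_left isCoprime_one_left
      (nu_coprime isCoprime_one_left))
  have h1' : ((Fintype.card F : ℝ) - 1) ^ d * ‖Cs ψ (La L Nk d 1 1) k d‖ ^ (2 * k)
      ≤ (k : ℝ) ^ d * ((2 * k : ℝ) ^ (k * (d - 1) + 1) * (Fintype.card F : ℝ) ^ (2 * k * d)) := h1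
  set q : ℝ := (Fintype.card F : ℝ) with hqdef
  have hq2 : (2 : ℝ) ≤ q := by rw [hqdef]; exact_mod_cast hq
  have hq0 : 0 < q := by linarith
  have hq1 : 0 < q - 1 := by linarith
  set c := cn ψ k Nk d L with hc
  have hc0 : 0 ≤ c := cn_nonneg ψ k Nk d L
  set X' : ℝ := (2 * k : ℝ) ^ (k * d + 1) * 16 ^ d with hX
  have hX0 : 0 ≤ X' := by positivity
  set D : ℝ := (k : ℝ) ^ d * (2 * k : ℝ) ^ (k * (d - 1) + 1) with hD
  have hD0 : 0 ≤ D := by positivity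
  have h2 : (q - 1) ^ d * c ^ (2 * k) ≤ D := by
    rw [hc]
    unfold cn
    rw [div_pow, ← mul_div_assoc, div_le_iff₀ (by positivity)]
    calc (q - 1) ^ d * ‖Cs ψ (La L Nk d 1 1) k d‖ ^ (2 * k)
        ≤ (k : ℝ) ^ d * ((2 * k : ℝ) ^ (k * (d - 1) + 1) * q ^ (2 * k * d)) := h1'
      _ = D * (q ^ d) ^ (2 * k) := by
          rw [hD, ← pow_mul, mul_comm d]; ring
  have h3 : (D ^ u) * X' ^ (2 * k) ≤ ((q - 1) ^ d) ^ u := by
    have h4 : ((((k ^ d * (2 * k) ^ (k * (d - 1) + 1)) ^ u *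
        ((2 * k) ^ (k * d + 1) * 16 ^ d) ^ (2 * k) : ℕ)) : ℝ)
        ≤ ((((Fintype.card F - 1) ^ d) ^ u : ℕ) : ℝ) := by exact_mod_cast hnum
    rw [Nat.cast_pow ((Fintype.card F - 1) ^ d) u, Nat.cast_pow (Fintype.card F - 1) d,
      Nat.cast_sub Fintype.card_pos, Nat.cast_one, ← hqdef] at h4
    rw [hD, hX]
    push_cast at h4
    exact h4
  have h5 : ((q - 1) ^ d) ^ u * (c ^ u * X') ^ (2 * k) ≤ ((q - 1) ^ d) ^ u * 1 := by
    calc ((q - 1) ^ d) ^ u * (c ^ u * X') ^ (2 * k)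
        = ((q - 1) ^ d * c ^ (2 * k)) ^ u * X' ^ (2 * k) := by
          rw [mul_pow (c ^ u), mul_pow ((q - 1) ^ d), ← pow_mul c, ← pow_mul c, mul_comm u]
          ring
      _ ≤ D ^ u * X' ^ (2 * k) := by
          apply mul_le_mul_of_nonneg_right _ (by positivity)
          exact pow_le_pow_left₀ (by positivity) h2 u
      _ ≤ ((q - 1) ^ d) ^ u := h3
      _ = ((q - 1) ^ d) ^ u * 1 := by ring
  have h6 : (c ^ u * X') ^ (2 * k) ≤ 1 := le_of_mul_le_mul_left h5 (by positivity)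
  have h7 : (c ^ u * X') ^ (2 * k) ≤ 1 ^ (2 * k) := by rw [one_pow]; exact h6
  exact le_of_pow_le_pow_left₀ (by omega) zero_le_one h7

/-- The sum over a level. -/
lemma level_sum {ψ : AddChar F ℂ} (hψ : ψ ≠ 1) {k : ℕ} (hk : 2 ≤ k)
    (hch : ∀ a, a ≤ k → ((k.choose a : ℕ) : F) ≠ 0) {u : ℕ} {d M Nk : ℕ} (hd : 1 ≤ d)
    (hNk : 1 ≤ Nk)
    (hnum : (k ^ d * (2 * k) ^ (k * (d - 1) + 1)) ^ u * ((2 * k) ^ (k * d + 1) * 16 ^ d) ^ (2 * k)
        ≤ ((Fintype.card F - 1) ^ d) ^ u) (hq : 2 ≤ Fintype.card F) :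
    ∑ α ∈ DN F M Nk d, cn ψ k Nk d (lin α) ^ (2 * k + u)
      ≤ (Fintype.card F : ℝ) ^ (M - (Nk + d)) / 16 ^ d := by
  set q : ℝ := (Fintype.card F : ℝ) with hqdef
  have hq0 : 0 < q := by rw [hqdef]; exact_mod_cast Fintype.card_pos
  have hDc : Dc F M Nk d 1 = DN F M Nk d := by
    rw [Dc, Finset.filter_true_of_mem]
    intro α _
    exact isCoprime_one_left
  have h1 := mean_Dc hψ hk hd hNk hch (M := M) (N := (1 : F[X])) (a := 1)
    (fun α _ => isCoprime_one_left)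
  rw [hDc, ← hqdef] at h1
  have h6 : q ^ (k * d + 1) * (JB F k d : ℝ) = (2 * k : ℝ) ^ (k * d + 1) * q ^ (2 * k * (d + 1))
    := (JB_mul (F := F) k d).resolve_right (by omega)
  rw [h6] at h1
  have h2 : ∑ α ∈ DN F M Nk d, cn ψ k Nk d (lin α) ^ (2 * k)
      ≤ q ^ (M - (Nk + d)) * (2 * k : ℝ) ^ (k * d + 1) := by
    have h3 : ∑ α ∈ DN F M Nk d, cn ψ k Nk d (lin α) ^ (2 * k)
        = (∑ α ∈ DN F M Nk d, ‖Cs ψ (La (lin α) Nk d 1 1) k d‖ ^ (2 * k)) / (q ^ d) ^ (2 * k) := by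
      rw [Finset.sum_div]
      apply Finset.sum_congr rfl
      intro α _
      unfold cn
      rw [div_pow]
    rw [h3, div_le_iff₀ (by positivity)]
    have hq2 : 0 < q ^ (2 * k) := by positivity
    apply le_of_mul_le_mul_left _ hq2
    refine le_trans h1 (le_of_eq ?_)
    rw [← pow_mul]
    have : q ^ (2 * k * (d + 1)) = q ^ (2 * k) * q ^ (d * (2 * k)) := by
      rw [← pow_add]; congr 1; ring
    rw [this]; ring
  have hk0 : (0 : ℝ) < k := by exact_mod_cast (show 0 < k by omega)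
  have hA : (0 : ℝ) < (2 * k : ℝ) ^ (k * d + 1) := by positivity
  have h4 : ∀ α ∈ DN F M Nk d, cn ψ k Nk d (lin α) ^ (2 * k + u)
      ≤ cn ψ k Nk d (lin α) ^ (2 * k) * (1 / ((2 * k : ℝ) ^ (k * d + 1) * 16 ^ d)) := by
    intro α hα
    rw [pow_add]
    apply mul_le_mul_of_nonneg_left _ (pow_nonneg (cn_nonneg _ _ _ _ _) _)
    rw [le_div_iff₀ (by positivity)]
    exact cn_sup hψ hk hch hd hNk (mem_DN.1 hα) hnum hq
  refine le_trans (Finset.sum_le_sum h4) ?_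
  rw [← Finset.sum_mul]
  calc _ ≤ (q ^ (M - (Nk + d)) * (2 * k : ℝ) ^ (k * d + 1)) *
        (1 / ((2 * k : ℝ) ^ (k * d + 1) * 16 ^ d)) :=
        mul_le_mul_of_nonneg_right h2 (by positivity)
    _ = _ := by field_simp

section
variable {k s : ℕ} {b : Fin s → F[X]} {c0 : F[X]} {n P : Fin s → ℕ} {M Nk R : ℕ}

/-- The contribution of a level. -/
lemma level_bound1 {ψ : AddChar F ℂ} (hψ : ψ ≠ 1) (hk : 2 ≤ k)
    (hch : ∀ a, a ≤ k → ((k.choose a : ℕ) : F) ≠ 0) {u : ℕ} (hs : s = 2 * k + u)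
    (H : Hyp k (fun _ => 1) b 1 c0 n P M Nk R) {d : ℕ} (hd : 1 ≤ d) (hdR : d ≤ R)
    (hnum : (k ^ d * (2 * k) ^ (k * (d - 1) + 1)) ^ u * ((2 * k) ^ (k * d + 1) * 16 ^ d) ^ (2 * k)
        ≤ ((Fintype.card F - 1) ^ d) ^ u) (hq : 2 ≤ Fintype.card F) :
    ‖∑ α ∈ DN F M Nk d, ∑ y, ψ (lin α (EE k (fun _ => 1) b 1 c0 n y))‖
      ≤ ((Yd k (fun _ => 1) b 1 c0 n (Nk + d)).card : ℝ) * (Fintype.card F : ℝ) ^ (R - d)
        / 16 ^ d := by
  rw [sum_DN_avg hψ (EE k (fun _ => 1) b 1 c0 n) H.hE]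
  refine le_trans (norm_sum_le _ _) ?_
  have h1 : ∀ α ∈ DN F M Nk d,
      ‖∑ y ∈ Finset.univ.filter (fun y => EE k (fun _ => 1) b 1 c0 n y ∈ degreeLT F (Nk + d)),
        ψ (lin α (EE k (fun _ => 1) b 1 c0 n y))‖
      ≤ ((Yd k (fun _ => 1) b 1 c0 n (Nk + d)).card : ℝ) *
        cn ψ k Nk d (lin α) ^ (2 * k + u) := by
    intro α hα
    have hα' := mem_DN.1 hα
    obtain ⟨hg, hgd, hK⟩ := gk_spec hα'
    have h2 := inner_boundN (ψ := ψ) H (fun i => le_trans hdR (H.hn i)) hg hgd hK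
    rw [Finset.prod_congr rfl (fun i _ => CC_eq ψ hα' (b i)), Finset.prod_const,
      Finset.card_univ, Fintype.card_fin] at h2
    have e2 : cn ψ k Nk d (lin α) ^ (2 * k + u) = cn ψ k Nk d (lin α) ^ s :=
      congrArg _ hs.symm
    rw [e2]
    exact h2
  refine le_trans (Finset.sum_le_sum h1) ?_
  rw [← Finset.mul_sum, mul_div_assoc]
  have h3 := level_sum hψ hk hch hd H.hNk hnum hq (M := M)
  have e : M - (Nk + d) = R - d := by have := H.hM; omega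
  rw [e] at h3
  exact mul_le_mul_of_nonneg_left h3 (by positivity)

end

end Pool.Agent.H598.TK
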