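import Pool.Agent.H598.TK.Level
import Pool.Agent.H598.DG.Setup

/-!
# The numerical condition for the minor arcs
-/

namespace Pool.Agent.H598.TK

open Finset Polynomial Pool.Agent.H598.FQ Pool.Agent.H598.DG
open scoped Classical

/-- The numerical condition holds for large `R`. -/
lemma exists_R {q k u : ℕ} (hk : 2 ≤ k) (huk : u ≤ k) (hu : 1 ≤ u)
    (hq : (2 * k) ^ (12 * k ^ 2) ≤ q ^ u) :
    ∃ R₀ : ℕ, ∀ R, R₀ ≤ R → ∀ P n W : ℕ, P ≤ 2 * R + 2 → n ≤ R + 1 → q ^ R ≤ 2 * R * W →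
      ((((2 * k) ^ (k * n + 1)) ^ 2 * (1 + k ^ (k * R))) ^ u *
        (4 * (2 * k) ^ (k * P + 1) * q ^ (2 * k - 1)) ^ (4 * k)) ≤ W ^ u := by
  have hq0 : 0 < q := by
    rcases Nat.eq_zero_or_pos q with h | h
    · subst h
      rw [zero_pow (by omega)] at hq
      have : 0 < (2 * k) ^ (12 * k ^ 2) := by positivity
      omega
    · exact h
  set C1 := ((2 * k) ^ (2 * k + 3)) ^ u * (4 * (2 * k) ^ (2 * k + 1) * q ^ (2 * k - 1)) ^ (4 * k)
    with hC1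
  have hβ : 2 ^ k < (2 * k) ^ (k ^ 2) := by
    calc 2 ^ k < (2 ^ 2) ^ k := Nat.pow_lt_pow_left (by norm_num) (by omega)
      _ ≤ (2 * k) ^ k := Nat.pow_le_pow_left (by omega) k
      _ ≤ (2 * k) ^ (k ^ 2) := Nat.pow_le_pow_right (by omega) (by nlinarith)
  obtain ⟨R₀, hR₀⟩ := exists_large (C := C1) hβ
  refine ⟨R₀ + 1, fun R hR P n W hP hn hW => ?_⟩
  have h1 := hR₀ R (by omega)
  -- bound for the left side
  have hA : ((2 * k) ^ (k * n + 1)) ^ 2 * (1 + k ^ (k * R))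
      ≤ (2 * k) ^ (2 * k + 3) * (2 * k) ^ (3 * k * R) := by
    have e1 : ((2 * k) ^ (k * n + 1)) ^ 2 ≤ (2 * k) ^ (2 * (k * (R + 1) + 1)) := by
      rw [← pow_mul]
      apply Nat.pow_le_pow_right (by omega)
      have := Nat.mul_le_mul_left k hn
      omega
    have e2 : 1 + k ^ (k * R) ≤ (2 * k) ^ (k * R + 1) := by
      have h3 : 1 ≤ k ^ (k * R) := Nat.one_le_pow _ _ (by omega)
      calc 1 + k ^ (k * R) ≤ 2 * k ^ (k * R) := by omega
        _ ≤ (2 * k) * (2 * k) ^ (k * R) := by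
            apply Nat.mul_le_mul (by omega)
            exact Nat.pow_le_pow_left (by omega) _
        _ = (2 * k) ^ (k * R + 1) := by rw [pow_succ]; ring
    calc ((2 * k) ^ (k * n + 1)) ^ 2 * (1 + k ^ (k * R))
        ≤ (2 * k) ^ (2 * (k * (R + 1) + 1)) * (2 * k) ^ (k * R + 1) := Nat.mul_le_mul e1 e2
      _ = (2 * k) ^ (2 * k + 3) * (2 * k) ^ (3 * k * R) := by
          rw [← pow_add, ← pow_add]; congr 1; ring
  have hB : 4 * (2 * k) ^ (k * P + 1) * q ^ (2 * k - 1)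
      ≤ (4 * (2 * k) ^ (2 * k + 1) * q ^ (2 * k - 1)) * (2 * k) ^ (2 * k * R) := by
    have e1 : (2 * k) ^ (k * P + 1) ≤ (2 * k) ^ (2 * k + 1) * (2 * k) ^ (2 * k * R) := by
      rw [← pow_add]
      apply Nat.pow_le_pow_right (by omega)
      have := Nat.mul_le_mul_left k hP
      have e : k * (2 * R + 2) = 2 * k * R + 2 * k := by ring
      omega
    calc 4 * (2 * k) ^ (k * P + 1) * q ^ (2 * k - 1)
        ≤ 4 * ((2 * k) ^ (2 * k + 1) * (2 * k) ^ (2 * k * R)) * q ^ (2 * k - 1) :=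
          Nat.mul_le_mul_right _ (Nat.mul_le_mul_left _ e1)
      _ = _ := by ring
  have hRR : 2 * R ≤ 2 ^ R := aux_two_mul_le R (by omega)
  have hL : (((2 * k) ^ (k * n + 1)) ^ 2 * (1 + k ^ (k * R))) ^ u *
        (4 * (2 * k) ^ (k * P + 1) * q ^ (2 * k - 1)) ^ (4 * k)
      ≤ C1 * (2 * k) ^ (11 * k ^ 2 * R) := by
    calc _ ≤ ((2 * k) ^ (2 * k + 3) * (2 * k) ^ (3 * k * R)) ^ u *
          ((4 * (2 * k) ^ (2 * k + 1) * q ^ (2 * k - 1)) * (2 * k) ^ (2 * k * R)) ^ (4 * k) :=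
          Nat.mul_le_mul (Nat.pow_le_pow_left hA u) (Nat.pow_le_pow_left hB _)
      _ = C1 * ((2 * k) ^ (3 * k * R * u) * (2 * k) ^ (2 * k * R * (4 * k))) := by
          rw [hC1, mul_pow ((2 * k) ^ (2 * k + 3)),
            mul_pow (4 * (2 * k) ^ (2 * k + 1) * q ^ (2 * k - 1)),
            ← pow_mul (2 * k) (3 * k * R), ← pow_mul (2 * k) (2 * k * R)]
          ring
      _ ≤ C1 * (2 * k) ^ (11 * k ^ 2 * R) := by
          apply Nat.mul_le_mul_left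
          rw [← pow_add]
          apply Nat.pow_le_pow_right (by omega)
          have : 3 * k * R * u ≤ 3 * k * R * k := Nat.mul_le_mul_left _ huk
          nlinarith
  have hpos : 0 < (2 * R) ^ u := by
    have : 0 < 2 * R := by omega
    positivity
  apply Nat.le_of_mul_le_mul_right _ hpos
  calc _ ≤ C1 * (2 * k) ^ (11 * k ^ 2 * R) * (2 * R) ^ u := Nat.mul_le_mul_right _ hL
    _ ≤ C1 * (2 * k) ^ (11 * k ^ 2 * R) * (2 ^ k) ^ R := by
        apply Nat.mul_le_mul_left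
        calc (2 * R) ^ u ≤ (2 ^ R) ^ u := Nat.pow_le_pow_left hRR u
          _ = (2 ^ u) ^ R := by rw [← pow_mul, ← pow_mul, mul_comm]
          _ ≤ (2 ^ k) ^ R := Nat.pow_le_pow_left (Nat.pow_le_pow_right (by norm_num) huk) R
    _ = (C1 * (2 ^ k) ^ R) * (2 * k) ^ (11 * k ^ 2 * R) := by ring
    _ ≤ ((2 * k) ^ (k ^ 2)) ^ R * (2 * k) ^ (11 * k ^ 2 * R) := Nat.mul_le_mul_right _ h1
    _ = ((2 * k) ^ (12 * k ^ 2)) ^ R := by
        rw [← pow_mul, ← pow_mul, ← pow_add]; congr 1; ring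
    _ ≤ (q ^ u) ^ R := Nat.pow_le_pow_left hq R
    _ = (q ^ R) ^ u := by rw [← pow_mul, ← pow_mul, mul_comm]
    _ ≤ (2 * R * W) ^ u := Nat.pow_le_pow_left hW u
    _ = W ^ u * (2 * R) ^ u := by rw [mul_pow, mul_comm]

end Pool.Agent.H598.TK
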