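import Pool.Agent.H598.DG.Comp

/-!
# The number of `k`-th roots modulo a polynomial
-/

namespace Pool.Agent.H598.TK

open Finset Polynomial Pool.Agent.H598.FQ Pool.Agent.H598.DG
open scoped Classical

variable {F : Type*} [Field F]

/-- The monic irreducible factors. -/
noncomputable def pf (g : F[X]) : Finset F[X] :=
  (UniqueFactorizationMonoid.normalizedFactors g).toFinset

lemma pf_monic {g p : F[X]} (hp : p ∈ pf g) : p.Monic := by
  rw [pf, Multiset.mem_toFinset] at hp
  have h1 := UniqueFactorizationMonoid.irreducible_of_normalized_factor p hp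
  rw [← UniqueFactorizationMonoid.normalize_normalized_factor p hp]
  exact monic_normalize h1.ne_zero

lemma pf_irred {g p : F[X]} (hp : p ∈ pf g) : Irreducible p := by
  rw [pf, Multiset.mem_toFinset] at hp
  exact UniqueFactorizationMonoid.irreducible_of_normalized_factor p hp

lemma pf_dvd {g p : F[X]} (hp : p ∈ pf g) : p ∣ g := by
  rw [pf, Multiset.mem_toFinset] at hp
  exact UniqueFactorizationMonoid.dvd_of_mem_normalizedFactors hp

lemma exists_pf {g z : F[X]} (hg : g ≠ 0) (hz : Irreducible z) (hzg : z ∣ g) :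
    ∃ p ∈ pf g, Associated z p := by
  obtain ⟨p, hp, hass⟩ := UniqueFactorizationMonoid.exists_mem_normalizedFactors_of_dvd hg hz hzg
  exact ⟨p, by rw [pf, Multiset.mem_toFinset]; exact hp, hass⟩

lemma pf_coprime {g p p' : F[X]} (hp : p ∈ pf g) (hp' : p' ∈ pf g) (hne : p ≠ p') :
    IsCoprime p p' := by
  refine (EuclideanDomain.dvd_or_coprime p p' (pf_irred hp)).resolve_left ?_
  intro hd
  exact hne (eq_of_monic_of_associated (pf_monic hp) (pf_monic hp')
    ((pf_irred hp).associated_of_dvd (pf_irred hp') hd))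

lemma prod_pf_dvd (g : F[X]) : ∏ p ∈ pf g, p ∣ g := by
  apply Finset.prod_dvd_of_coprime
  · intro p hp p' hp' hne
    exact pf_coprime hp hp' hne
  · intro p hp
    exact pf_dvd hp

lemma sum_deg_pf {g : F[X]} (hg : g ≠ 0) : ∑ p ∈ pf g, p.natDegree ≤ g.natDegree := by
  rw [← natDegree_prod _ _ (fun p hp => (pf_irred hp).ne_zero)]
  exact natDegree_le_of_dvd (prod_pf_dvd g) hg

lemma card_pf_le {g : F[X]} (hg : g ≠ 0) : (pf g).card ≤ g.natDegree := by
  refine le_trans ?_ (sum_deg_pf hg)
  rw [Finset.card_eq_sum_ones]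
  apply Finset.sum_le_sum
  intro p hp
  exact (pf_irred hp).natDegree_pos

/-- Two roots which agree modulo the prime factors agree. -/
lemma root_lift {k : ℕ} (hk : 0 < k) (hkF : (k : F) ≠ 0) {g : F[X]} (hg : g ≠ 0) {x y : F[X]}
    (hx : IsCoprime x g) (hxy : g ∣ x ^ k - y ^ k) (h : ∀ p ∈ pf g, p ∣ x - y) : g ∣ x - y := by
  set s := ∑ j ∈ Finset.range k, x ^ j * y ^ (k - 1 - j) with hs
  have h1 : (x - y) * s = x ^ k - y ^ k := (Commute.all x y).mul_geom_sum₂ k
  have hcop : IsCoprime g s := by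
    apply isCoprime_of_irreducible_dvd
    · rintro ⟨h0, -⟩; exact hg h0
    · intro z hz hzg hzs
      obtain ⟨p, hp, hass⟩ := exists_pf hg hz hzg
      have hps : p ∣ s := hass.dvd_iff_dvd_left.1 hzs
      have h2 : p ∣ s - (k : F[X]) * x ^ (k - 1) := by
        have e1 : (k : F[X]) * x ^ (k - 1) = ∑ j ∈ Finset.range k, x ^ j * x ^ (k - 1 - j) := by
          have : ∀ j ∈ Finset.range k, x ^ j * x ^ (k - 1 - j) = x ^ (k - 1) := by
            intro j hj
            have := Finset.mem_range.1 hj
            rw [← pow_add]; congr 1; omega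
          rw [Finset.sum_congr rfl this, Finset.sum_const, Finset.card_range, nsmul_eq_mul]
        rw [e1, hs, ← Finset.sum_sub_distrib]
        apply Finset.dvd_sum
        intro j _
        rw [← mul_sub]
        apply Dvd.dvd.mul_left
        have h3 := h p hp
        have h4 : p ∣ y - x := by
          rw [← neg_sub]; exact h3.neg_right
        exact dvd_trans h4 (sub_dvd_pow_sub_pow _ _ _)
      have h5 : p ∣ (k : F[X]) * x ^ (k - 1) := (dvd_sub_right hps).1 h2
      have hpi := pf_irred hp
      rcases hpi.prime.dvd_or_dvd h5 with h6 | h6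
      · have h7 : IsUnit ((k : F[X])) := by
          rw [← map_natCast (C : F →+* F[X]), isUnit_C]
          exact hkF.isUnit
        exact hpi.not_isUnit (isUnit_of_dvd_unit h6 h7)
      · have h8 := hpi.prime.dvd_of_dvd_pow h6
        exact hpi.not_isUnit (hx.isUnit_of_dvd' h8 (pf_dvd hp))
  apply hcop.dvd_of_dvd_mul_right
  rw [h1]
  exact hxy

/-- The number of `k`-th roots modulo `g`. -/
theorem card_roots_mod {k : ℕ} (hk : 0 < k) (hkF : (k : F) ≠ 0) {g : F[X]} (hg : g ≠ 0)
    (c : F[X]) (A : Finset F[X]) (h1 : ∀ x ∈ A, IsCoprime x g) (h2 : ∀ x ∈ A, g ∣ x ^ k - c)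
    (h3 : ∀ x ∈ A, ∀ y ∈ A, g ∣ x - y → x = y) : A.card ≤ k ^ (pf g).card := by
  have hinst : ∀ p : {p // p ∈ pf g}, Fact (Irreducible (p : F[X])) := fun p => ⟨pf_irred p.2⟩
  let T : ∀ p : {p // p ∈ pf g}, Finset (AdjoinRoot (p : F[X])) :=
    fun p => (nthRoots k (AdjoinRoot.mk (p : F[X]) c)).toFinset
  have hT : ∀ p, (T p).card ≤ k := fun p =>
    le_trans (Multiset.toFinset_card_le _) (card_nthRoots k _)
  have h4 : A.card ≤ (Fintype.piFinset T).card := by
    apply Finset.card_le_card_of_injOn (fun x => fun p : {p // p ∈ pf g} =>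
      AdjoinRoot.mk (p : F[X]) x)
    · intro x hx
      rw [Finset.mem_coe, Fintype.mem_piFinset]
      intro p
      simp only [T]
      rw [Multiset.mem_toFinset, mem_nthRoots hk, ← map_pow, AdjoinRoot.mk_eq_mk]
      exact dvd_trans (pf_dvd p.2) (h2 x hx)
    · intro x hx y hy hxy
      apply h3 x hx y hy
      apply root_lift hk hkF hg (h1 x hx)
      · have := dvd_sub (h2 x hx) (h2 y hy)
        have e : x ^ k - c - (y ^ k - c) = x ^ k - y ^ k := by ring
        rwa [e] at this
      · intro p hp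
        have := congrFun hxy ⟨p, hp⟩
        rw [← AdjoinRoot.mk_eq_mk]
        exact this
  refine le_trans h4 ?_
  rw [Fintype.card_piFinset]
  calc ∏ p, (T p).card ≤ ∏ _p : {p // p ∈ pf g}, k := Finset.prod_le_prod' (fun p _ => hT p)
    _ = k ^ (pf g).card := by rw [Finset.prod_const, Finset.card_univ, Fintype.card_coe]

end Pool.Agent.H598.TK
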